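import Pool.Agent.Lib_helper87.KTD.P.HD

/-!
# Project KTD, coincident points: the vertex functions at the trivial character
-/

set_option autoImplicit false

namespace Pool.Agent.KTD

open Complex Pool.Agent.TCL

variable {O : Subring ℂ} {ω : ℂ} {f : O} {ε : O → O} {N : ℕ} {R : Finset O} {Λ : ℂ →ₗ[KK O] KK O}

/-- the family `χ_(a, 0) ⊗ e2` -/
noncomputable def Fa (O : Subring ℂ) (ω : ℂ) (ε : O → O) (N : ℕ) (a : ℂ) : Fm O :=
  ten (0, 1) (chi O ω ε N (a, 0))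

/-- the rest of the distribution relation of `Fa` -/
noncomputable def Pa (O : Subring ℂ) (ω : ℂ) (ε : O → O) (N : ℕ) (S : Finset O) (a : ℂ) : Fm O :=
  ∑ k ∈ S, ten (0, 1) (chi O ω ε N (a, (k : ℂ) / N))

theorem fa_in {a : ℂ} (ha : (N : ℂ) * a ∈ O) : In O ((N : ℂ) • ((a, 0) : V2)) :=
  ⟨ha, by show (N : ℂ) * 0 ∈ O; rw [mul_zero]; exact O.zero_mem⟩

theorem fa_mem {a : ℂ} (ha : (N : ℂ) * a ∈ O) : Fa O ω ε N a ∈ MM O ω ε N (GS (ON O N)) :=
  Submodule.subset_span ⟨1, one_mem _, (0, 1), (a, 0), ⟨zero_mem _, one_mem _⟩, fa_in ha,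
    (act_one _).symm⟩

theorem fa_N0 (hN : 0 < N) : (N : O) ≠ 0 := by
  intro h
  have h1 := congrArg (fun t : O => (t : ℂ)) h
  have h2 : (N : ℂ) = 0 := by simpa using h1
  exact hN.ne' (by exact_mod_cast h2)

theorem fa_Nc (hN : 0 < N) : (N : ℂ) ≠ 0 := by exact_mod_cast hN.ne'

/-- `S` without the class of `0` -/
theorem fa_reps (h : Ctx O ω f ε N R Λ) : ∃ S : Finset O, (∀ k ∈ S, (k : ℂ) / N ∉ O) ∧
    (∀ (M : Type) [AddCommGroup M] (F : O → M), (∀ x y, F (x + (N : O) * y) = F x) →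
      ∑ k ∈ S, F (-k) = ∑ k ∈ S, F k) ∧
    ∀ a : ℂ, (N : ℂ) * a ∈ O → ∀ nu : ℂˣ, (nu : ℂ) = N →
      act (dg 1 nu) (Fa O ω ε N a) = (N : KK O) • (Fa O ω ε N a + Pa O ω ε N S a) := by
  classical
  have hN0 := fa_N0 (O := O) h.N_pos
  have hNc := fa_Nc h.N_pos
  obtain ⟨S, hS⟩ := exists_reps h.quad (N : O) hN0
  obtain ⟨k0, ⟨hk0, hd0⟩, huniq⟩ := hS 0
  refine ⟨S.erase k0, ?_, ?_, ?_⟩
  rotate_left
  · intro M _ F hF
    have e1 := sum_mul_coprime hS F hF (-1) isCoprime_one_left.neg_left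
    have e2 : ∑ k ∈ S, F (-1 * k) = ∑ k ∈ S, F (-k) :=
      Finset.sum_congr rfl fun k _ => by rw [neg_one_mul]
    rw [e2, ← Finset.add_sum_erase _ _ hk0, ← Finset.add_sum_erase _ _ hk0] at e1
    have e3 : F (-k0) = F k0 := by
      obtain ⟨d, hd⟩ := hd0
      have e4 : -k0 = k0 + (N : O) * (d + d) := by linear_combination 2 * hd
      rw [e4, hF]
    rw [e3] at e1
    exact add_left_cancel e1
  rotate_left
  · intro k hk hkO
    rw [Finset.mem_erase] at hk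
    apply hk.1
    apply huniq k ⟨hk.2, ?_⟩
    refine ⟨-⟨_, hkO⟩, ?_⟩
    apply Subtype.ext
    show (0 : ℂ) - k = ((N : O) : ℂ) * (-((k : ℂ) / N))
    rw [hc_cN]
    field_simp
    ring
  · intro a ha nu hnu
    have hrel := chi_dist2 (ε := ε) h (a := a) (b := 0) (r := (N : O)) (r' := 1) hN0
      (by rw [mul_one]) (by rw [mul_zero]; exact O.zero_mem) hS (ru := nu)
      (by rw [hnu, hc_cN, map_natCast])
    rw [← Finset.add_sum_erase _ _ hk0] at hrel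
    have hk0' : chi O ω ε N (a, (0 + (k0 : ℂ)) / ((N : O) : ℂ)) = chi O ω ε N (a, 0) := by
      obtain ⟨d, hd⟩ := hd0
      have e1 : (k0 : ℂ) = -((N : ℂ) * d) := by
        have := congrArg (fun t : O => (t : ℂ)) hd
        have h2 : (0 : ℂ) - k0 = ((N : O) : ℂ) * d := this
        rw [hc_cN] at h2
        linear_combination -h2
      have e2 : (0 + (k0 : ℂ)) / ((N : O) : ℂ) = ((-d : O) : ℂ) := by
        rw [hc_cN, e1]
        push_cast
        field_simp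
        ring
      rw [e2]
      have := chi_per (ω := ω) (ε := ε) (N := N) h.quad (a, 0) (y := (0, ((-d : O) : ℂ)))
        ⟨O.zero_mem, (-d : O).2⟩
      rw [← this]
      simp
    rw [hk0'] at hrel
    have e3 : ∀ k : O, (0 + (k : ℂ)) / ((N : O) : ℂ) = (k : ℂ) / N := by
      intro k
      rw [hc_cN, zero_add]
    simp only [e3] at hrel
    have e4 : Fa O ω ε N a + Pa O ω ε N (S.erase k0) a =
        ten (0, 1) (chi O ω ε N (a, 0) + ∑ k ∈ S.erase k0, chi O ω ε N (a, (k : ℂ) / N)) := by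
      unfold Fa Pa
      rw [pb_ten_add, hc_ten_sum]
    rw [e4, hrel]
    unfold Fa
    rw [hc_ten_act]
    funext c l
    show pf (dg 1 nu) (chi O ω ε N (a, 0)) c l •
        (((‖dt (dg 1 nu)‖ : ℂ) ^ 2) • (dg 1 nu) ((0, 1) : V2)) =
      (N : ℂ) • ((((‖((N : O) : ℂ)‖ : ℂ) ^ 2) * pf (dg 1 nu) (chi O ω ε N (a, 0)) c l) •
        ((0 : ℂ), (1 : ℂ)))
    have e5 : (dg 1 nu) ((0, 1) : V2) = (0, (N : ℂ)) := by
      show (((1 : ℂˣ) : ℂ) * 0, (nu : ℂ) * 1) = _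
      rw [hnu]
      simp
    rw [e5, dt_dg, Units.val_one, one_mul, hnu, hc_cN]
    refine Prod.ext ?_ ?_
    · simp
    · simp only [Prod.smul_snd, smul_eq_mul, mul_one]
      ring

theorem pa_mem (h : Ctx O ω f ε N R Λ) {S : Finset O} (hS : ∀ k ∈ S, (k : ℂ) / N ∉ O) {a : ℂ}
    (ha : (N : ℂ) * a ∈ O) : Pa O ω ε N S a ∈ MP O ω ε N := by
  have hNc := fa_Nc h.N_pos
  refine Submodule.sum_mem _ fun k hk => ?_
  refine pff_ten2 (chi_mem ⟨ha, ?_⟩ (hS k hk))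
  show (N : ℂ) * ((k : ℂ) / N) ∈ O
  have : (N : ℂ) * ((k : ℂ) / N) = k := by field_simp
  rw [this]
  exact k.2

end Pool.Agent.KTD
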