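import Pool.Agent.Lib_helper87.KTD.Y.YA

/-!
# Project KTD, coincident points: the corrected vertex function
-/

set_option autoImplicit false

namespace Pool.Agent.KTD

open Complex Pool.Agent.TCL

variable {O : Subring ℂ} {ω : ℂ} {f : O} {ε : O → O} {N : ℕ} {R : Finset O} {Λ : ℂ →ₗ[KK O] KK O}

/-- a solution of the vertex equation which also solves it at the trivial character -/
structure VL2 (ω : ℂ) (ε : O → O) (N : ℕ) (R : Finset O) (Λ : ℂ →ₗ[KK O] KK O)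
    (φ : Fm O →ₗ[KK O] HH O N) : Prop extends VL ω ε N R Λ φ where
  tor : ∀ a : ℂ, (N : ℂ) * a ∈ O → ∀ nu : ℂˣ, (nu : ℂ) = N →
    (Nul O N).mkQ (UU ω N Λ R (dg 1 nu) (0, 1) (Fa O ω ε N a)) =
      φ (act (dg 1 nu) (Fa O ω ε N a)) - φ (Fa O ω ε N a)
  neg : ∀ a : ℂ, (N : ℂ) * a ∈ O →
    (Nul O N).mkQ (UU ω N Λ R (dg (-1) 1) (0, 1) (Fa O ω ε N a)) =
      φ (Fa O ω ε N (-a)) - φ (Fa O ω ε N a)
  uni : ∀ a : ℂ, (N : ℂ) * a ∈ O → ∀ n : O,
    (Nul O N).mkQ (UU ω N Λ R (un n) (0, 1) (Fa O ω ε N a)) = 0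

theorem yb_co (h : Ctx O ω f ε N R Λ) {F : Fm O} (hF : F ∈ MM O ω ε N (GS (ON O N)))
    {g g' : GL2} (hg : IsB O N g) (hg' : IsB O N g') :
    (Nul O N).mkQ (UU ω N Λ R (g * g') (0, 1) F) = (Nul O N).mkQ (UU ω N Λ R g' (0, 1) F) +
      (Nul O N).mkQ (UU ω N Λ R g (0, 1) (act g' F)) := by
  rw [hb_coc h hF (isB_GS hg) (isB_GS hg') hb_in01' hb_ne01]
  obtain ⟨t, ht, he⟩ := isB_e2 hg'
  rw [he, uu_scale t ht]

theorem yb_un_Fa (hO : Quad O ω) (n : O) (a : ℂ) :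
    act (un n) (Fa O ω ε N a) = Fa O ω ε N a := by
  unfold Fa
  rw [hc_ten_act, dt_un, chi_un hO]
  have e1 : (un (n : ℂ)) ((0, 1) : V2) = (0, 1) := by
    show ((0 : ℂ), (1 : ℂ) + n * 0) = _
    simp
  rw [e1]
  simp

theorem yb_un_Pa (hO : Quad O ω) (hN : 0 < N) (n : O) (S : Finset O) (a : ℂ) :
    act (un ((N : ℂ) * n)) (Pa O ω ε N S a) = Pa O ω ε N S a := by
  have hNc := fa_Nc hN
  have e0 : ((N : ℂ) * n) = (((N : O) * n : O) : ℂ) := by push_cast; rfl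
  unfold Pa
  have e2 : act (un ((N : ℂ) * n)) (∑ k ∈ S, ten (0, 1) (chi O ω ε N (a, (k : ℂ) / N))) =
      ∑ k ∈ S, act (un ((N : ℂ) * n)) (ten (0, 1) (chi O ω ε N (a, (k : ℂ) / N))) := by
    classical
    induction S using Finset.induction_on with
    | empty =>
      rw [Finset.sum_empty, Finset.sum_empty]
      have := act_smul (un ((N : ℂ) * n)) (0 : KK O) (0 : Fm O)
      rwa [zero_smul, zero_smul] at this
    | insert k S hk ih =>
      rw [Finset.sum_insert hk, Finset.sum_insert hk, act_add, ih]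
  rw [e2]
  refine Finset.sum_congr rfl fun k _ => ?_
  rw [hc_ten_act, dt_un, e0, chi_un hO]
  have e1 : (un (((N : O) * n : O) : ℂ)) ((0, 1) : V2) = (0, 1) := by
    show ((0 : ℂ), (1 : ℂ) + (((N : O) * n : O) : ℂ) * 0) = _
    simp
  rw [e1]
  have e3 : a - starRingEnd ℂ (((N : O) * n : O) : ℂ) * ((k : ℂ) / N) =
      a + (-(starRingEnd ℂ (n : ℂ) * k)) := by
    push_cast
    rw [map_mul, map_natCast]
    field_simp
    ring
  show ten ((((‖(1 : ℂ)‖ : ℝ) : ℂ) ^ 2) • ((0, 1) : V2)) (chi O ω ε N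
    (a - starRingEnd ℂ (((N : O) * n : O) : ℂ) * ((k : ℂ) / N), (k : ℂ) / N)) = _
  rw [e3]
  have := chi_per (ω := ω) (ε := ε) (N := N) hO (a, (k : ℂ) / N)
    (y := (-(starRingEnd ℂ (n : ℂ) * k), 0))
    ⟨O.neg_mem (O.mul_mem (conj_mem hO n.2) k.2), O.zero_mem⟩
  have e4 : ((a, (k : ℂ) / N) : V2) + (-(starRingEnd ℂ (n : ℂ) * k), 0) =
      (a + (-(starRingEnd ℂ (n : ℂ) * k)), (k : ℂ) / N) := by
    ext <;> simp
  rw [e4] at this
  rw [this]
  simp

theorem yb_pf_neg (x : V2) :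
    pf (dg (-1) 1) (chi O ω ε N x) = chi O ω ε N (-x.1, x.2) := by
  funext c l
  show chi O ω ε N x c ((dg (-1) 1)⁻¹ l) = _
  have e : (dg (-1) 1)⁻¹ l = (-l.1, l.2) := by
    have e1 : (dg (-1) 1) ((-l.1, l.2) : V2) = l := by
      show (((-1 : ℂˣ) : ℂ) * (-l.1), ((1 : ℂˣ) : ℂ) * l.2) = l
      simp
    have e2 : (dg (-1) 1)⁻¹ ((dg (-1) 1) ((-l.1, l.2) : V2)) = (-l.1, l.2) := by
      show ((dg (-1) 1)⁻¹ * (dg (-1) 1)) ((-l.1, l.2) : V2) = _
      rw [inv_mul_cancel]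
      rfl
    rwa [e1] at e2
  rw [e]
  have h1 : In O ((-l.1, l.2) : V2) ↔ In O l := by
    constructor
    · intro h
      exact ⟨by have := O.neg_mem h.1; simpa using this, h.2⟩
    · intro h
      exact ⟨O.neg_mem h.1, h.2⟩
  unfold chi
  by_cases hl : In O l ∧ IsCoprime c (N : O)
  · rw [if_pos hl, if_pos (show In (O : Set ℂ) ((-l.1, l.2) : V2) ∧ IsCoprime c (N : O) from
      ⟨h1.2 hl.1, hl.2⟩)]
    show pr ω (ε c * c * x.1) (-l.1) * _ = pr ω (ε c * c * (-x.1)) l.1 * _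
    rw [hd_pr_neg]
    congr 2
    ring
  · rw [if_neg hl, if_neg (show ¬ (In (O : Set ℂ) ((-l.1, l.2) : V2) ∧
      IsCoprime c (N : O)) from fun h => hl ⟨h1.1 h.1, h.2⟩)]

theorem yb_neg_ten (x : V2) :
    act (dg (-1) 1) (ten (0, 1) (chi O ω ε N x)) = ten (0, 1) (chi O ω ε N (-x.1, x.2)) := by
  rw [hc_ten_act, yb_pf_neg, dt_dg]
  have e1 : (dg (-1) 1) ((0, 1) : V2) = (0, 1) := by
    show (((-1 : ℂˣ) : ℂ) * 0, ((1 : ℂˣ) : ℂ) * 1) = _
    simp
  rw [e1]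
  simp

theorem yb_neg_Fa (a : ℂ) :
    act (dg (-1) 1) (Fa O ω ε N a) = Fa O ω ε N (-a) := yb_neg_ten _

theorem yb_neg_Pa (S : Finset O) (a : ℂ) :
    act (dg (-1) 1) (Pa O ω ε N S a) = Pa O ω ε N S (-a) := by
  classical
  unfold Pa
  induction S using Finset.induction_on with
  | empty =>
    rw [Finset.sum_empty, Finset.sum_empty]
    have := act_smul (dg (-1) 1) (0 : KK O) (0 : Fm O)
    rwa [zero_smul, zero_smul] at this
  | insert k S hk ih =>
    rw [Finset.sum_insert hk, Finset.sum_insert hk, act_add, ih, yb_neg_ten]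

/-- `act g` as a linear map -/
noncomputable def yb_act (g : GL2) : Fm O →ₗ[KK O] Fm O where
  toFun := act g
  map_add' F F' := act_add g F F'
  map_smul' k F := act_smul g k F

theorem exists_VL2 (h : Ctx O ω f ε N R Λ) (hN2 : 2 ≤ N) :
    ∃ φ : Fm O →ₗ[KK O] HH O N, VL2 ω ε N R Λ φ := by
  classical
  obtain ⟨φ, hφ⟩ := exists_VL h
  obtain ⟨S, hS, -, hrel⟩ := fa_reps (ε := ε) h
  have hNc := fa_Nc h.N_pos
  set nu : ℂˣ := Units.mk0 (N : ℂ) hNc with hnu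
  have hnuv : (nu : ℂ) = N := rfl
  have hnu1 : (nu : ℂ) ∈ ON O N := by rw [hnuv]; exact natCast_mem _ N
  have hnu2 : ((nu⁻¹ : ℂˣ) : ℂ) ∈ ON O N := by
    refine ⟨1, ?_⟩
    rw [Units.val_inv_eq_inv_val, hnuv, pow_one, mul_inv_cancel₀ hNc]
    exact O.one_mem
  have h1N : ((1 : ℂˣ) : ℂ) ∈ ON O N := by simp
  have h1N' : (((1 : ℂˣ)⁻¹ : ℂˣ) : ℂ) ∈ ON O N := by simp
  have hm1 : ((-1 : ℂˣ) : ℂ) ∈ ON O N := by simp
  have hm1' : (((-1 : ℂˣ)⁻¹ : ℂˣ) : ℂ) ∈ ON O N := by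
    simp
  have hB0 : IsB O N (dg 1 nu) := isB_dg h1N h1N' hnu1 hnu2
  have hBm : IsB O N (dg (-1) 1) := isB_dg hm1 hm1' h1N h1N'
  set U : GL2 → Fm O → HH O N := fun g F => (Nul O N).mkQ (UU ω N Λ R g (0, 1) F) with hU
  have hMP : ∀ F ∈ MP O ω ε N, F ∈ MM O ω ε N (GS (ON O N)) := fun F hF => MP_le h.quad h.N_pos hF
  have uadd : ∀ g, IsB O N g → ∀ F ∈ MM O ω ε N (GS (ON O N)), ∀ F' ∈ MM O ω ε N (GS (ON O N)),
      U g (F + F') = U g F + U g F' := by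
    intro g hg F hF F' hF'
    show (Nul O N).mkQ _ = _
    rw [uu_add h (isB_GS hg) hb_in01 hF hF', map_add]
  have usmul : ∀ g (k : KK O) F, U g (k • F) = k • U g F := by
    intro g k F
    show (Nul O N).mkQ _ = _
    rw [uu_smul, map_smul]
  -- the linear extension of `U (dg 1 nu)`
  let U0 : MM O ω ε N (GS (ON O N)) →ₗ[KK O] HH O N :=
    { toFun := fun F => U (dg 1 nu) F
      map_add' := fun F F' => uadd _ hB0 F F.2 F' F'.2
      map_smul' := fun k F => usmul _ k F }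
  obtain ⟨ψ, hψ⟩ := LinearMap.exists_extend U0
  have hψ' : ∀ F ∈ MM O ω ε N (GS (ON O N)), ψ F = U (dg 1 nu) F := by
    intro F hF
    have : (ψ ∘ₗ (MM O ω ε N (GS (ON O N))).subtype) ⟨F, hF⟩ = U0 ⟨F, hF⟩ := by rw [hψ]
    exact this
  have hN1 : ((N : KK O) - 1) ≠ 0 := by
    intro h0
    have h1 : (N : KK O) = 1 := sub_eq_zero.1 h0
    have h2 : ((N : ℕ) : KK O) = ((1 : ℕ) : KK O) := by rw [h1, Nat.cast_one]
    have := Nat.cast_injective h2
    omega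
  set φ' : Fm O →ₗ[KK O] HH O N :=
    ((N : KK O) - 1)⁻¹ • (ψ + (N : KK O) • φ - φ ∘ₗ yb_act (dg 1 nu)) with hφ'
  have hφ'v : ∀ F, ((N : KK O) - 1) • φ' F = ψ F + (N : KK O) • φ F - φ (act (dg 1 nu) F) := by
    intro F
    rw [hφ', LinearMap.smul_apply, smul_smul, mul_inv_cancel₀ hN1, one_smul]
    rfl
  have key1 : ∀ F ∈ MP O ω ε N, φ' F = φ F := by
    intro F hF
    have e1 := hφ'v F
    have e2 : U (dg 1 nu) F = φ (act (dg 1 nu) F) - φ F := hφ.eq _ hB0 F hF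
    rw [hψ' F (hMP F hF), e2] at e1
    have e3 : ((N : KK O) - 1) • φ' F = ((N : KK O) - 1) • φ F := by
      rw [e1, sub_smul, one_smul]
      abel
    have e4 := congrArg (fun t => ((N : KK O) - 1)⁻¹ • t) e3
    simp only [smul_smul, inv_mul_cancel₀ hN1, one_smul] at e4
    exact e4
  have hrel' : ∀ a : ℂ, (N : ℂ) * a ∈ O → act (dg 1 nu) (Fa O ω ε N a) =
      (N : KK O) • (Fa O ω ε N a + Pa O ω ε N S a) := fun a ha => hrel a ha nu hnuv
  have hpm : ∀ a : ℂ, (N : ℂ) * a ∈ O → Pa O ω ε N S a ∈ MP O ω ε N := fun a ha =>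
    pa_mem h hS ha
  have key2 : ∀ a : ℂ, (N : ℂ) * a ∈ O → ((N : KK O) - 1) • φ' (Fa O ω ε N a) =
      U (dg 1 nu) (Fa O ω ε N a) - (N : KK O) • φ (Pa O ω ε N S a) := by
    intro a ha
    rw [hφ'v, hψ' _ (fa_mem ha), hrel' a ha, map_smul, map_add, smul_add]
    abel
  -- values of a cocycle on `act (dg 1 nu) (Fa a)`
  have key3 : ∀ g, IsB O N g → ∀ a : ℂ, (N : ℂ) * a ∈ O →
      U g (act (dg 1 nu) (Fa O ω ε N a)) = (N : KK O) • U g (Fa O ω ε N a) +
        (N : KK O) • (φ (act g (Pa O ω ε N S a)) - φ (Pa O ω ε N S a)) := by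
    intro g hg a ha
    have e : U g (Pa O ω ε N S a) = φ (act g (Pa O ω ε N S a)) - φ (Pa O ω ε N S a) :=
      hφ.eq g hg _ (hpm a ha)
    rw [hrel' a ha, usmul, uadd g hg _ (fa_mem ha) _ (hMP _ (hpm a ha)), smul_add, e]
  have hco : ∀ g g', IsB O N g → IsB O N g' → ∀ F ∈ MM O ω ε N (GS (ON O N)),
      U (g * g') F = U g' F + U g (act g' F) := fun g g' hg hg' F hF => yb_co h hF hg hg'
  have huni : ∀ a : ℂ, (N : ℂ) * a ∈ O → ∀ n : O, U (un n) (Fa O ω ε N a) = 0 := by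
    intro a ha n
    have hFm := fa_mem (ω := ω) (ε := ε) ha
    have hun : ∀ m : O, IsB O N (un m) := fun m => isB_un (O_le_ON m.2)
    have hadd : ∀ m : ℕ, U (un ((m : ℂ) * n)) (Fa O ω ε N a) = (m : KK O) • U (un n) (Fa O ω ε N a) := by
      intro m
      induction m with
      | zero =>
        have e1 := hco 1 1 isB_one isB_one _ hFm
        rw [mul_one, act_one] at e1
        have e2 : U 1 (Fa O ω ε N a) = 0 := by
          have := e1
          nth_rewrite 1 [← add_zero (U 1 (Fa O ω ε N a))] at this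
          exact (add_left_cancel this).symm
        rw [Nat.cast_zero, zero_mul, un_zero, e2, Nat.cast_zero, zero_smul]
      | succ m ih =>
        have e0 : ((m : ℂ) * n) = (((m : O) * n : O) : ℂ) := by push_cast; rfl
        have e1 := hco (un n) (un ((m : ℂ) * n)) (hun n) (by rw [e0]; exact hun _) _ hFm
        have e2 : act (un ((m : ℂ) * n)) (Fa O ω ε N a) = Fa O ω ε N a := by
          rw [e0]; exact yb_un_Fa h.quad _ a
        rw [un_mul, e2, ih] at e1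
        have e3 : ((m + 1 : ℕ) : ℂ) * n = n + (m : ℂ) * n := by push_cast; ring
        rw [e3, e1]
        push_cast
        rw [add_smul, one_smul]
    have hNn : IsB O N (un ((N : ℂ) * n)) := by
      have e0 : ((N : ℂ) * n) = (((N : O) * n : O) : ℂ) := by push_cast; rfl
      rw [e0]; exact hun _
    have ecomm : un ((N : ℂ) * n) * dg 1 nu = dg 1 nu * un n := by
      rw [dg_un, hnuv, Units.val_one, div_one]
    have c1 := hco (un ((N : ℂ) * n)) (dg 1 nu) hNn hB0 _ hFm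
    have c2 := hco (dg 1 nu) (un n) hB0 (hun n) _ hFm
    rw [yb_un_Fa h.quad] at c2
    rw [ecomm, c2, key3 _ hNn a ha, yb_un_Pa h.quad h.N_pos, sub_self, smul_zero, add_zero,
      hadd N, add_comm] at c1
    have c3 := add_left_cancel c1
    have c4 : ((N : KK O) * N - 1) • U (un n) (Fa O ω ε N a) = 0 := by
      rw [sub_smul, one_smul, mul_smul, ← c3, sub_self]
    have hN1' : ((N : KK O) * N - 1) ≠ 0 := by
      intro h0
      have h1 : (N : KK O) * N = 1 := sub_eq_zero.1 h0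
      have h2 : ((N * N : ℕ) : KK O) = ((1 : ℕ) : KK O) := by rw [Nat.cast_mul, h1, Nat.cast_one]
      have := Nat.cast_injective h2
      nlinarith
    exact (smul_eq_zero.1 c4).resolve_left hN1'
  have hng : ∀ {a : ℂ}, (N : ℂ) * a ∈ O → (N : ℂ) * (-a) ∈ O := fun {a} ha => by
    rw [mul_neg]; exact O.neg_mem ha
  refine ⟨φ', ⟨⟨?_, ?_⟩, ?_, ?_, ?_⟩⟩
  · intro g hg F hF
    rw [key1 _ (MP_act h.quad h.N_pos hg hF), key1 _ hF]
    exact hφ.eq g hg F hF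
  · intro F hF c hc
    rw [key1 _ hF, key1 _ (gal_MP h hF hc)]
    exact hφ.gal F hF c hc
  · intro a ha nu' hnu'
    have e0 : nu' = nu := Units.ext (by rw [hnu', hnuv])
    rw [e0]
    show U _ _ = _
    rw [hrel' a ha, map_smul, map_add, key1 _ (hpm a ha)]
    have e1 := key2 a ha
    have e2 : U (dg 1 nu) (Fa O ω ε N a) =
        ((N : KK O) - 1) • φ' (Fa O ω ε N a) + (N : KK O) • φ (Pa O ω ε N S a) := by
      rw [e1]; abel
    rw [e2, sub_smul, one_smul, smul_add]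
    abel
  · intro a ha
    show U _ _ = _
    have ecomm : dg (-1) 1 * dg 1 nu = dg 1 nu * dg (-1) 1 := by
      rw [dg_mul, dg_mul, mul_comm (-1) 1, mul_comm 1 nu]
    have hFm := fa_mem (ω := ω) (ε := ε) ha
    have c1 := hco (dg (-1) 1) (dg 1 nu) hBm hB0 _ hFm
    have c2 := hco (dg 1 nu) (dg (-1) 1) hB0 hBm _ hFm
    rw [yb_neg_Fa] at c2
    rw [ecomm, c2, key3 _ hBm a ha, yb_neg_Pa] at c1
    have k1 := key2 a ha
    have k2 := key2 (-a) (hng ha)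
    have e3 : ((N : KK O) - 1) • U (dg (-1) 1) (Fa O ω ε N a) =
        ((N : KK O) - 1) • (φ' (Fa O ω ε N (-a)) - φ' (Fa O ω ε N a)) := by
      rw [smul_sub, k1, k2, sub_smul, one_smul]
      have c3 : (N : KK O) • U (dg (-1) 1) (Fa O ω ε N a) =
          U (dg (-1) 1) (Fa O ω ε N a) + U (dg 1 nu) (Fa O ω ε N (-a)) -
            U (dg 1 nu) (Fa O ω ε N a) -
            (N : KK O) • (φ (Pa O ω ε N S (-a)) - φ (Pa O ω ε N S a)) := by
        rw [c1]; abel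
      rw [c3, smul_sub]
      abel
    have e4 := congrArg (fun t => ((N : KK O) - 1)⁻¹ • t) e3
    simp only [smul_smul, inv_mul_cancel₀ hN1, one_smul] at e4
    exact e4
  · intro a ha n
    exact huni a ha n

end Pool.Agent.KTD
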