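import Pool.Agent.Lib_helper87.KTD.Y.YB
import Pool.Agent.Lib_helper76.TCL.P.QB

/-!
# Project KTD, coincident points: the values
-/

set_option autoImplicit false

namespace Pool.Agent.KTD

open Complex Pool.Agent.TCL

variable {O : Subring ℂ} {ω : ℂ} {f : O} {ε : O → O} {N : ℕ} {R : Finset O} {Λ : ℂ →ₗ[KK O] KK O}

/-- `ph_right` for a single element -/
theorem yc_ph (h : Ctx O ω f ε N R Λ) {φ : Fm O →ₗ[KK O] HH O N}
    {g b : GL2} (hg : g ∈ GS (ON O N)) (hb : IsB O N b) {F G : Fm O}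
    (hG : G ∈ MM O ω ε N (GS (ON O N))) (hF : act g⁻¹ F = act b G)
    (hΔ : (Nul O N).mkQ (UU ω N Λ R b (0, 1) G) = φ (act b G) - φ G) :
    Ph ω N R Λ φ (g * b) F = Ph ω N R Λ φ g F := by
  have e1 : act (g * b)⁻¹ F = G := by
    rw [mul_inv_rev, act_mul, hF, ← act_mul, inv_mul_cancel, act_one]
  unfold Ph
  rw [e1, hb_coc h hG hg (isB_GS hb) hb_in01' hb_ne01]
  obtain ⟨t, ht, he⟩ := isB_e2 hb
  rw [he, uu_scale t ht, hΔ, hF]
  abel

/-- `wh_right` with hypotheses on `Ph` -/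
theorem yc_wh {φ : Fm O →ₗ[KK O] HH O N} {g0 g1 b0 b1 : GL2} (hb0 : IsB O N b0)
    (hb1 : IsB O N b1) {F : Fm O} (h0 : Ph ω N R Λ φ (g0 * b0) F = Ph ω N R Λ φ g0 F)
    (h1 : Ph ω N R Λ φ (g1 * b1) F = Ph ω N R Λ φ g1 F) :
    Wh ω N R Λ φ (g0 * b0) (g1 * b1) F = Wh ω N R Λ φ g0 g1 F := by
  unfold Wh
  rw [h0, h1]
  obtain ⟨t0, ht0, he0⟩ := isB_e2 hb0
  obtain ⟨t1, ht1, he1⟩ := isB_e2 hb1
  have e0 : (g0 * b0) (0, 1) = t0 • g0 (0, 1) := by
    show g0 (b0 (0, 1)) = _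
    rw [he0, map_smul]
  have e1 : (g1 * b1) (0, 1) = t1 • g1 (0, 1) := by
    show g1 (b1 (0, 1)) = _
    rw [he1, map_smul]
  rw [e0, e1, ww_scale t0 t1 ht0 ht1]

/-- `B(-a, b) = -B(a, b)`, `B(a, -b) = B(a, b)` -/
theorem bdn_neg {H : Type} [AddCommGroup H] [Module (KK O) H] {B : ℂ → ℂ → H}
    (hB : BDN O f ε N H B) {a b : ℂ} (ha : (N : ℂ) * a ∈ O) (hb : (N : ℂ) * b ∈ O)
    (ha' : a ∉ O) (hb' : b ∉ O) : B (-a) b = -B a b ∧ B a (-b) = B a b := by
  have hu : IsUnit (-1 : O) := isUnit_one.neg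
  have hS := isReps_unit (O := O) hu
  have hN : (N : O) = (-1) * (-(N : O)) := by ring
  have hne : (-1 : O) ≠ 0 := neg_ne_zero.2 one_ne_zero
  have hc : ∀ t : ℂ, (N : ℂ) * t ∈ O → ((-(N : O) : O) : ℂ) * t ∈ O := by
    intro t ht
    have e : ((-(N : O) : O) : ℂ) * t = -((N : ℂ) * t) := by
      push_cast
      ring
    rw [e]
    exact O.neg_mem ht
  have e0 : ∀ t : ℂ, (t + ((0 : O) : ℂ)) / ((-1 : O) : ℂ) = -t := by
    intro t
    push_cast
    rw [add_zero, div_neg, div_one]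
  constructor
  · have h1 := hB.dist1 a b hb ha' hb' (-1) (-(N : O)) hne hN (hc a ha) {0} hS (-1)
      (by push_cast; simp)
    rw [Finset.sum_singleton, e0, neg_one_smul] at h1
    exact h1
  · have h1 := hB.dist2 a b ha ha' hb' (-1) (-(N : O)) hne hN (hc b hb) {0} hS
    rw [Finset.sum_singleton, e0] at h1
    exact h1

theorem fa_sgi (a : ℂ) : act sg⁻¹ (Fa O ω ε N a) = ten (1, 0) (chi O ω ε N (0, a)) := by
  unfold Fa
  rw [hc_ten_act, hc_pf_sgi, hc_dt_sgi, hc_sgi]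
  simp

theorem fa_sgi_mem {a : ℂ} (ha : (N : ℂ) * a ∈ O) (ha' : a ∉ O) :
    act sg⁻¹ (Fa O ω ε N a) ∈ MP O ω ε N := by
  rw [fa_sgi]
  exact pff_ten1 (chi_mem ⟨by show (N : ℂ) * 0 ∈ O; rw [mul_zero]; exact O.zero_mem, ha⟩ ha')

/-- the value at the trivial character -/
theorem wh_zero (h : Ctx O ω f ε N R Λ) (hN2 : 2 ≤ N) {φ : Fm O →ₗ[KK O] HH O N}
    (hφ : VL2 ω ε N R Λ φ) {a : ℂ} (ha : (N : ℂ) * a ∈ O) (ha' : a ∉ O) :
    Wh ω N R Λ φ sg 1 (Fa O ω ε N a) = 0 := by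
  classical
  obtain ⟨S, hS, hsym, hrel⟩ := fa_reps (ε := ε) h
  have hNc := fa_Nc h.N_pos
  set nu : ℂˣ := Units.mk0 (N : ℂ) hNc with hnu
  have hnuv : (nu : ℂ) = N := rfl
  have hnu1 : (nu : ℂ) ∈ ON O N := by rw [hnuv]; exact natCast_mem _ N
  have hnu2 : ((nu⁻¹ : ℂˣ) : ℂ) ∈ ON O N := by
    refine ⟨1, ?_⟩
    rw [Units.val_inv_eq_inv_val, hnuv, pow_one, mul_inv_cancel₀ hNc]
    exact O.one_mem
  have h1N : ((1 : ℂˣ) : ℂ) ∈ ON O N := by simp
  have h1N' : (((1 : ℂˣ)⁻¹ : ℂˣ) : ℂ) ∈ ON O N := by simp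
  have hB0 : IsB O N (dg 1 nu) := isB_dg h1N h1N' hnu1 hnu2
  have hB1 : IsB O N (dg nu 1) := isB_dg hnu1 hnu2 h1N h1N'
  have hFm := fa_mem (ω := ω) (ε := ε) ha
  have hbd := bf_BDN h hφ.toVL
  have hPm := pa_mem (ε := ε) h hS ha
  have hPM := MP_le h.quad h.N_pos hPm
  -- the value at the image
  have e1 := wh_left h (φ := φ) (isB_GS hB0) (sg_mem (O := O) (N := N)) (one_mem _) hFm
  have ec : dg 1 nu * sg = sg * dg nu 1 := by
    apply LinearEquiv.ext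
    intro l
    rfl
  have e2 : Wh ω N R Λ φ (sg * dg nu 1) (1 * dg 1 nu) (act (dg 1 nu) (Fa O ω ε N a)) =
      Wh ω N R Λ φ sg 1 (act (dg 1 nu) (Fa O ω ε N a)) := by
    refine yc_wh hB1 hB0 ?_ ?_
    · refine ph_right h hφ.toVL sg_mem hB1 ?_
      have hA : act sg⁻¹ (act (dg 1 nu) (Fa O ω ε N a)) =
          act (dg nu 1) (act sg⁻¹ (Fa O ω ε N a)) := by
        rw [← act_mul, ← act_mul]
        congr 1
      rw [hA]
      exact MP_act h.quad h.N_pos hB1 (fa_sgi_mem ha ha')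
    · refine yc_ph h (one_mem _) hB0 hFm ?_ (hφ.tor a ha nu hnuv)
      rw [inv_one, act_one]
  rw [one_mul] at e2
  rw [ec, mul_one, e2] at e1
  rw [hrel a ha nu hnuv, wh_smul, wh_add h sg_mem (one_mem _) hFm hPM] at e1
  -- the rest
  have e3 : Wh ω N R Λ φ sg 1 (Pa O ω ε N S a) = ∑ k ∈ S, Bf ω ε N R Λ φ ((k : ℂ) / N) a := by
    unfold Pa
    have hk : ∀ k : O, (N : ℂ) * ((k : ℂ) / N) ∈ O := by
      intro k
      have : (N : ℂ) * ((k : ℂ) / N) = k := by field_simp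
      rw [this]
      exact k.2
    rw [hc_wh_sum h sg_mem (one_mem _) S _ (fun k _ => Submodule.subset_span ⟨1, one_mem _, (0, 1),
      (a, (k : ℂ) / N), ⟨zero_mem _, one_mem _⟩, ⟨ha, hk k⟩, (act_one _).symm⟩)]
    refine Finset.sum_congr rfl fun k _ => ?_
    rw [wh_e2 h hφ.toVL ha (hk k)]
  have e4 : ∑ k ∈ S, Bf ω ε N R Λ φ ((k : ℂ) / N) a = 0 := by
    set G : O → HH O N := fun k => if (k : ℂ) / N ∈ O then 0 else Bf ω ε N R Λ φ ((k : ℂ) / N) a
      with hG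
    have hper : ∀ x y : O, G (x + (N : O) * y) = G x := by
      intro x y
      have e5 : ((x + (N : O) * y : O) : ℂ) / N = (x : ℂ) / N + y := by
        push_cast
        field_simp
      simp only [hG, e5]
      have e6 : (x : ℂ) / N + y ∈ O ↔ (x : ℂ) / N ∈ O := by
        constructor
        · intro hh
          have := O.sub_mem hh y.2
          rwa [add_sub_cancel_right] at this
        · intro hh
          exact O.add_mem hh y.2
      by_cases hx : (x : ℂ) / N ∈ O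
      · rw [if_pos (e6.2 hx), if_pos hx]
      · rw [if_neg (fun hh => hx (e6.1 hh)), if_neg hx]
        refine hbd.per1 _ _ ?_ ha hx ha' y
        have : (N : ℂ) * ((x : ℂ) / N) = x := by field_simp
        rw [this]
        exact x.2
    have e5 := hsym _ G hper
    have e6 : ∀ k ∈ S, G k = Bf ω ε N R Λ φ ((k : ℂ) / N) a := fun k hk => by
      simp only [hG]
      rw [if_neg (hS k hk)]
    have e7 : ∀ k ∈ S, G (-k) = -Bf ω ε N R Λ φ ((k : ℂ) / N) a := fun k hk => by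
      have e8 : ((-k : O) : ℂ) / N = -((k : ℂ) / N) := by push_cast; ring
      have hk' : (N : ℂ) * ((k : ℂ) / N) ∈ O := by
        have : (N : ℂ) * ((k : ℂ) / N) = k := by field_simp
        rw [this]
        exact k.2
      simp only [hG, e8]
      rw [if_neg, (bdn_neg hbd hk' ha (hS k hk) ha').1]
      intro hh
      apply hS k hk
      have := O.neg_mem hh
      rwa [neg_neg] at this
    rw [Finset.sum_congr rfl e6, Finset.sum_congr rfl e7, Finset.sum_neg_distrib] at e5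
    have e9 : (2 : KK O) • ∑ k ∈ S, Bf ω ε N R Λ φ ((k : ℂ) / N) a = 0 := by
      rw [two_smul]
      nth_rewrite 1 [← e5]
      exact neg_add_cancel _
    exact (smul_eq_zero.1 e9).resolve_left two_ne_zero
  rw [e3, e4, add_zero] at e1
  have hN1 : ((N : KK O) - 1) ≠ 0 := by
    intro h0
    have h1 : (N : KK O) = 1 := sub_eq_zero.1 h0
    have h2 : ((N : ℕ) : KK O) = ((1 : ℕ) : KK O) := by rw [h1, Nat.cast_one]
    have := Nat.cast_injective h2
    omega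
  have e5 : ((N : KK O) - 1) • Wh ω N R Λ φ sg 1 (Fa O ω ε N a) = 0 := by
    rw [sub_smul, one_smul, e1, sub_self]
  exact (smul_eq_zero.1 e5).resolve_left hN1

end Pool.Agent.KTD
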