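import Pool.Agent.Lib_helper87.KTD.Y.YC
import Pool.Agent.Lib_helper87.KTD.P.IB

/-!
# Project KTD, coincident points: the values of all symbols
-/

set_option autoImplicit false

namespace Pool.Agent.KTD

open Complex Pool.Agent.TCL

variable {O : Subring ℂ} {ω : ℂ} {f : O} {ε : O → O} {N : ℕ} {R : Finset O} {Λ : ℂ →ₗ[KK O] KK O}

/-- the edge `(e2, e3)` of the family which is parallel to `e3` -/
theorem yd_e2 (h : Ctx O ω f ε N R Λ) (hN2 : 2 ≤ N) {φ : Fm O →ₗ[KK O] HH O N}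
    (hφ : VL2 ω ε N R Λ φ) {a : ℂ} (ha : (N : ℂ) * a ∈ O) (ha' : a ∉ O) :
    Wh ω N R Λ φ 1 ro (ten (-1, -1) (chi O ω ε N (a, -a))) = 0 := by
  have na : (N : ℂ) * (-a) ∈ O := by rw [mul_neg]; exact O.neg_mem ha
  have na' : -a ∉ O := fun hh => ha' (by have := O.neg_mem hh; rwa [neg_neg] at this)
  have rm : ro ∈ GS (ON O N) := ro_mem
  have rim : ro⁻¹ ∈ GS (ON O N) := inv_mem rm
  have sm : sg ∈ GS (ON O N) := sg_mem
  have hF : ten (-1, -1) (chi O ω ε N (a, -a)) ∈ MM O ω ε N (GS (ON O N)) :=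
    Submodule.subset_span ⟨1, one_mem _, (-1, -1), (a, -a), ⟨neg_mem (one_mem _),
      neg_mem (one_mem _)⟩, ⟨ha, na⟩, (act_one _).symm⟩
  have r0 : act ro⁻¹ (ten (-1, -1) (chi O ω ε N (a, -a))) = Fa O ω ε N (-a) := by
    have e := ro_ten (ε := ε) h (-1) 1 a (-a)
    have e1 : (-1 : ℂ) + 1 = 0 := by ring
    have e2 : -a - -a = 0 := by ring
    rw [e1, e2] at e
    exact e
  have w1 := wh_left h (φ := φ) rim (one_mem _) rm hF
  rw [r0, mul_one, inv_mul_cancel] at w1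
  rw [← w1]
  have hb : IsB O N (sg * ro⁻¹) := by
    apply hd_lower (mul_mem sm rim)
    show (sg (ro⁻¹ (0, 1))).1 = 0
    rw [hd_roi]
    show -(0 : ℂ) = 0
    simp
  have ss : sg * (sg * ro⁻¹) = ro⁻¹ := by
    rw [← mul_assoc]
    have : sg * sg = 1 := by
      apply LinearEquiv.ext
      intro l
      rfl
    rw [this, one_mul]
  have w2 : Wh ω N R Λ φ (sg * (sg * ro⁻¹)) (1 * 1) (Fa O ω ε N (-a)) =
      Wh ω N R Λ φ sg 1 (Fa O ω ε N (-a)) := by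
    refine yc_wh hb isB_one ?_ ?_
    · exact ph_right h hφ.toVL sm hb (fa_sgi_mem na na')
    · rw [mul_one]
  rw [ss, one_mul] at w2
  rw [w2, wh_zero h hN2 hφ na na']

/-- the edge `(e3, e1)` of the family which is parallel to `e3` -/
theorem yd_e3 (h : Ctx O ω f ε N R Λ) (hN2 : 2 ≤ N) {φ : Fm O →ₗ[KK O] HH O N}
    (hφ : VL2 ω ε N R Λ φ) {a : ℂ} (ha : (N : ℂ) * a ∈ O) (ha' : a ∉ O) :
    Wh ω N R Λ φ ro sg (ten (-1, -1) (chi O ω ε N (a, -a))) = 0 := by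
  have na : (N : ℂ) * (-a) ∈ O := by rw [mul_neg]; exact O.neg_mem ha
  have na' : -a ∉ O := fun hh => ha' (by have := O.neg_mem hh; rwa [neg_neg] at this)
  have rm : ro ∈ GS (ON O N) := ro_mem
  have sm : sg ∈ GS (ON O N) := sg_mem
  have hF : ten (-1, -1) (chi O ω ε N (a, -a)) ∈ MM O ω ε N (GS (ON O N)) :=
    Submodule.subset_span ⟨1, one_mem _, (-1, -1), (a, -a), ⟨neg_mem (one_mem _),
      neg_mem (one_mem _)⟩, ⟨ha, na⟩, (act_one _).symm⟩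
  have s0 : act sg (ten (-1, -1) (chi O ω ε N (a, -a))) = ten (-1, -1) (chi O ω ε N (-a, a)) := by
    rw [hc_ten_act, hc_pf_sg, hc_dt_sg, hc_sg]
    simp
  have w1 := wh_left h (φ := φ) sm rm sm hF
  have hss : sg * sg = 1 := by
    apply LinearEquiv.ext
    intro l
    rfl
  rw [s0, hss] at w1
  rw [← w1]
  have h1N : ((1 : ℂˣ) : ℂ) ∈ ON O N := by simp
  have h1N' : (((1 : ℂˣ)⁻¹ : ℂˣ) : ℂ) ∈ ON O N := by simp
  have hm1 : ((-1 : ℂˣ) : ℂ) ∈ ON O N := by simp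
  have hm1' : (((-1 : ℂˣ)⁻¹ : ℂˣ) : ℂ) ∈ ON O N := by simp
  have hBm : IsB O N (dg (-1) 1) := isB_dg hm1 hm1' h1N h1N'
  have hBu : IsB O N (un ((1 : O) : ℂ)) := isB_un (O_le_ON (1 : O).2)
  have ec : sg * ro = ro * (un ((1 : O) : ℂ) * dg (-1) 1) := by
    apply LinearEquiv.ext
    intro l
    show ((l.1 - l.2, -l.2) : V2) = (-((((1 : ℂˣ) : ℂ) * l.2 + ((1 : O) : ℂ) *
      (((-1 : ℂˣ) : ℂ) * l.1))), (((-1 : ℂˣ) : ℂ) * l.1) - (((1 : ℂˣ) : ℂ) * l.2 + ((1 : O) : ℂ) *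
      (((-1 : ℂˣ) : ℂ) * l.1)))
    ext
    · simp
      ring
    · simp
  rw [ec]
  have hGm := fa_mem (ω := ω) (ε := ε) na
  have e1 : act (un ((1 : O) : ℂ) * dg (-1) 1) (Fa O ω ε N (-a)) = Fa O ω ε N a := by
    rw [act_mul, yb_neg_Fa, yb_un_Fa h.quad, neg_neg]
  have w2 : Wh ω N R Λ φ (ro * (un ((1 : O) : ℂ) * dg (-1) 1)) (1 * 1)
      (ten (-1, -1) (chi O ω ε N (-a, a))) =
      Wh ω N R Λ φ ro 1 (ten (-1, -1) (chi O ω ε N (-a, a))) := by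
    refine yc_wh (isB_mul hBu hBm) isB_one ?_ ?_
    · refine yc_ph h rm (isB_mul hBu hBm) hGm ?_ ?_
      · rw [e1]
        have e := ro_ten (ε := ε) h (-1) 1 (-a) a
        have e2 : (-1 : ℂ) + 1 = 0 := by ring
        have e3 : -(-a) - a = 0 := by ring
        rw [e2, e3] at e
        exact e
      · rw [e1, yb_co h hGm hBu hBm, yb_neg_Fa, hφ.uni _ (by rw [neg_neg]; exact ha), add_zero,
          hφ.neg _ na, neg_neg]
    · rw [mul_one]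
  rw [one_mul] at w2
  rw [w2, wh_swap]
  have e4 := yd_e2 h hN2 hφ na na'
  rw [neg_neg] at e4
  rw [e4, neg_zero]

/-- the class of the triangle sum -/
noncomputable def QQ (Λ : ℂ →ₗ[KK O] KK O) (R : Finset O) (N : ℕ) (F : Fm O) : HH O N :=
  (Nul O N).mkQ (fun _ => tau Λ R (1, 0) (0, 1) (-1, -1) F)

theorem qq_sum (h : Ctx O ω f ε N R Λ) {φ : Fm O →ₗ[KK O] HH O N} {F : Fm O}
    (hF : F ∈ MM O ω ε N (GS (ON O N))) : QQ Λ R N F =
      Wh ω N R Λ φ sg 1 F + Wh ω N R Λ φ 1 ro F + Wh ω N R Λ φ ro sg F := by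
  have s := wh_sum h (φ := φ) (sg_mem (O := O) (N := N)) (one_mem _) (ro_mem (O := O) (N := N)) hF
  have c0 : sg (0, 1) = ((1, 0) : V2) := rfl
  have c1 : (1 : GL2) (0, 1) = ((0, 1) : V2) := rfl
  have c2 : ro (0, 1) = ((-1, -1) : V2) := by
    show ((-1 : ℂ), (0 : ℂ) - 1) = (-1, -1)
    rw [zero_sub]
  rw [c0, c1, c2] at s
  exact s

theorem qq_add (h : Ctx O ω f ε N R Λ) {F F' : Fm O} (hF : F ∈ MM O ω ε N (GS (ON O N)))
    (hF' : F' ∈ MM O ω ε N (GS (ON O N))) : QQ Λ R N (F + F') = QQ Λ R N F + QQ Λ R N F' := by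
  have rm : ro ∈ GS (ON O N) := ro_mem
  have sm : sg ∈ GS (ON O N) := sg_mem
  rw [qq_sum h (φ := 0) hF, qq_sum h (φ := 0) hF',
    qq_sum h (φ := 0) (Submodule.add_mem _ hF hF'), wh_add h sm (one_mem _) hF hF',
    wh_add h (one_mem _) rm hF hF', wh_add h rm sm hF hF']
  abel

theorem qq_smul (h : Ctx O ω f ε N R Λ) (k : KK O) {F : Fm O}
    (hF : F ∈ MM O ω ε N (GS (ON O N))) : QQ Λ R N (k • F) = k • QQ Λ R N F := by
  rw [qq_sum h (φ := 0) hF, qq_sum h (φ := 0) (Submodule.smul_mem _ k hF), wh_smul, wh_smul,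
    wh_smul, smul_add, smul_add]

/-- the symbols `(x, x, z)` -/
theorem qq_coin (h : Ctx O ω f ε N R Λ) (hN2 : 2 ≤ N) {φ : Fm O →ₗ[KK O] HH O N}
    (hφ : VL2 ω ε N R Λ φ) {a : ℂ} (ha : (N : ℂ) * a ∈ O) (ha' : a ∉ O) :
    QQ Λ R N (ten (-1, -1) (chi O ω ε N (a, -a))) = (2 : KK O) • Bf ω ε N R Λ φ a a := by
  have na : (N : ℂ) * (-a) ∈ O := by rw [mul_neg]; exact O.neg_mem ha
  have na' : -a ∉ O := fun hh => ha' (by have := O.neg_mem hh; rwa [neg_neg] at this)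
  have hF : ten (-1, -1) (chi O ω ε N (a, -a)) ∈ MM O ω ε N (GS (ON O N)) :=
    Submodule.subset_span ⟨1, one_mem _, (-1, -1), (a, -a), ⟨neg_mem (one_mem _),
      neg_mem (one_mem _)⟩, ⟨ha, na⟩, (act_one _).symm⟩
  have hbd := bf_BDN h hφ.toVL
  rw [qq_sum h (φ := φ) hF, yd_e2 h hN2 hφ ha ha', yd_e3 h hN2 hφ ha ha', add_zero, add_zero]
  have v0 := hd_val h hφ.toVL ha na ha' na' (-1) (-1)
  have e0 : ((-1 : KK O) : ℂ) = -1 := by push_cast; rfl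
  rw [e0, (bdn_neg hbd ha ha ha' ha').1, (bdn_neg hbd ha ha ha' ha').2] at v0
  rw [v0]
  module

end Pool.Agent.KTD
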