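import Pool.Agent.Lib_helper87.KTD.Y.YD

/-!
# Project KTD, coincident points: the values of all symbols
-/

set_option autoImplicit false

namespace Pool.Agent.KTD

open Complex Pool.Agent.TCL

variable {O : Subring ℂ} {ω : ℂ} {f : O} {ε : O → O} {N : ℕ} {R : Finset O} {Λ : ℂ →ₗ[KK O] KK O}

open Classical in
/-- extension by zero -/
noncomputable def bz (O : Subring ℂ) {H : Type} [Zero H] (B : ℂ → ℂ → H) (a b : ℂ) : H :=
  if a ∈ O ∨ b ∈ O then 0 else B a b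

theorem bz_1 {H : Type} [Zero H] (B : ℂ → ℂ → H) {a : ℂ} (b : ℂ) (ha : a ∈ O) : bz O B a b = 0 :=
  if_pos (Or.inl ha)

theorem bz_2 {H : Type} [Zero H] (B : ℂ → ℂ → H) (a : ℂ) {b : ℂ} (hb : b ∈ O) : bz O B a b = 0 :=
  if_pos (Or.inr hb)

theorem bz_3 {H : Type} [Zero H] (B : ℂ → ℂ → H) {a b : ℂ} (ha : a ∉ O) (hb : b ∉ O) :
    bz O B a b = B a b := if_neg (fun h => h.elim ha hb)

theorem dl_cyc {H : Type} [AddCommGroup H] [Module (KK O) H] (B : ℂ → ℂ → H) (x y z : ℂ)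
    (v w : KK O) : dl B x y z v w = dl B y z x w (-v - w) := by
  unfold dl
  module

theorem ks_cyc (x y z v w : ℂ) : KS O ω x y z v w = KS O ω y z x w (-v - w) := by
  let e : O × O ≃ O × O :=
    { toFun := fun l => (l.2, -l.1 - l.2)
      invFun := fun l => (-l.1 - l.2, l.1)
      left_inv := fun l => by
        refine Prod.ext ?_ ?_
        · show -l.2 - (-l.1 - l.2) = l.1
          ring
        · rfl
      right_inv := fun l => by
        refine Prod.ext ?_ ?_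
        · rfl
        · show -(-l.1 - l.2) - l.1 = l.2
          ring }
  unfold KS
  rw [← Equiv.tsum_eq e (fun l : O × O => pr ω y l.1 * pr ω z l.2 * pr ω x (-(l.1 + l.2 : ℂ)) *
    ((-v - w) * starRingEnd ℂ (l.1 : ℂ) - w * starRingEnd ℂ (l.2 : ℂ)) /
      (‖(l.1 : ℂ)‖ * ‖(l.2 : ℂ)‖ * ‖(l.1 : ℂ) + l.2‖ : ℂ) ^ 2)]
  refine tsum_congr fun l => ?_
  have e1 : ((e l).1 : ℂ) = (l.2 : ℂ) := rfl
  have e2 : ((e l).2 : ℂ) = -(l.1 : ℂ) - l.2 := by
    show (((-l.1 - l.2 : O)) : ℂ) = _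
    push_cast
    rfl
  rw [e1, e2]
  have e3 : -((l.2 : ℂ) + (-(l.1 : ℂ) - l.2)) = l.1 := by ring
  have e4 : -(l.1 : ℂ) - l.2 = -((l.1 : ℂ) + l.2) := by ring
  have e5 : (l.2 : ℂ) + -((l.1 : ℂ) + l.2) = -(l.1 : ℂ) := by ring
  rw [e3, e4, e5, norm_neg, norm_neg, map_neg, map_add]
  ring

theorem ks_sw (x y z v w : ℂ) : KS O ω x y z v w = KS O ω y x z (-w) (-v) := by
  unfold KS
  rw [← Equiv.tsum_eq (Equiv.prodComm O O) (fun l : O × O => pr ω y l.1 * pr ω x l.2 *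
    pr ω z (-(l.1 + l.2 : ℂ)) *
    (-v * starRingEnd ℂ (l.1 : ℂ) - -w * starRingEnd ℂ (l.2 : ℂ)) /
      (‖(l.1 : ℂ)‖ * ‖(l.2 : ℂ)‖ * ‖(l.1 : ℂ) + l.2‖ : ℂ) ^ 2)]
  refine tsum_congr fun l => ?_
  simp only [Equiv.prodComm_apply, Prod.fst_swap, Prod.snd_swap]
  rw [add_comm (l.2 : ℂ) (l.1 : ℂ)]
  ring

/-- the class of the value of a symbol -/
noncomputable def T3 (ω : ℂ) (ε : O → O) (Λ : ℂ →ₗ[KK O] KK O) (R : Finset O) (N : ℕ) (x y z : ℂ)
    (v w : KK O) : HH O N :=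
  QQ Λ R N (ten (-(w : ℂ), (v : ℂ)) (chi O ω ε N (z - y, x - z)))

theorem t3_ks (h : Ctx O ω f ε N R Λ) (x y z : ℂ) (v w : KK O) :
    T3 ω ε Λ R N x y z v w = (Nul O N).mkQ (fun _ => Λ (∑ c ∈ R,
      KS O ω (ε c * c * x) (ε c * c * y) (ε c * c * z) v w)) := by
  unfold T3 QQ tau
  rw [ks_tt h]

theorem t3_cyc (h : Ctx O ω f ε N R Λ) (x y z : ℂ) (v w : KK O) :
    T3 ω ε Λ R N x y z v w = T3 ω ε Λ R N y z x w (-v - w) := by
  rw [t3_ks h, t3_ks h]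
  congr 2
  funext _
  congr 1
  refine Finset.sum_congr rfl fun c _ => ?_
  rw [ks_cyc]
  push_cast
  rfl

theorem t3_sw (h : Ctx O ω f ε N R Λ) (x y z : ℂ) (v w : KK O) :
    T3 ω ε Λ R N x y z v w = T3 ω ε Λ R N y x z (-w) (-v) := by
  rw [t3_ks h, t3_ks h]
  congr 2
  funext _
  congr 1
  refine Finset.sum_congr rfl fun c _ => ?_
  rw [ks_sw]
  push_cast
  rfl

theorem t3_congr (h : Ctx O ω f ε N R Λ) {x y z x' y' z' : ℂ} (h1 : (z - y) - (z' - y') ∈ O)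
    (h2 : (x - z) - (x' - z') ∈ O) (v w : KK O) :
    T3 ω ε Λ R N x y z v w = T3 ω ε Λ R N x' y' z' v w := by
  unfold T3
  rw [fb_chi h.quad (x := (z' - y', x' - z')) (y := (z - y, x - z)) h1 h2]

theorem t3_mem (_ : Ctx O ω f ε N R Λ) {x y z : ℂ} (hx : (N : ℂ) * x ∈ O) (hy : (N : ℂ) * y ∈ O)
    (hz : (N : ℂ) * z ∈ O) (v w : KK O) :
    ten (-(w : ℂ), (v : ℂ)) (chi O ω ε N (z - y, x - z)) ∈ MM O ω ε N (GS (ON O N)) :=
  Submodule.subset_span ⟨1, one_mem _, (-(w : ℂ), (v : ℂ)), (z - y, x - z),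
    ⟨neg_mem w.2, v.2⟩, ⟨by
      show (N : ℂ) * (z - y) ∈ O
      rw [mul_sub]; exact O.sub_mem hz hy, by
      show (N : ℂ) * (x - z) ∈ O
      rw [mul_sub]; exact O.sub_mem hx hz⟩, (act_one _).symm⟩

theorem t3_add (h : Ctx O ω f ε N R Λ) {x y z : ℂ} (hx : (N : ℂ) * x ∈ O) (hy : (N : ℂ) * y ∈ O)
    (hz : (N : ℂ) * z ∈ O) (v w v' w' : KK O) :
    T3 ω ε Λ R N x y z (v + v') (w + w') =
      T3 ω ε Λ R N x y z v w + T3 ω ε Λ R N x y z v' w' := by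
  unfold T3
  rw [← qq_add h (t3_mem h hx hy hz v w) (t3_mem h hx hy hz v' w')]
  congr 1
  funext c l
  show chi O ω ε N (z - y, x - z) c l • ((-((w + w' : KK O) : ℂ), ((v + v' : KK O) : ℂ)) : V2) =
    chi O ω ε N (z - y, x - z) c l • ((-(w : ℂ), (v : ℂ)) : V2) +
    chi O ω ε N (z - y, x - z) c l • ((-(w' : ℂ), (v' : ℂ)) : V2)
  rw [← smul_add]
  congr 1
  ext
  · push_cast
    simp
    ring
  · push_cast
    simp

theorem t3_smul (h : Ctx O ω f ε N R Λ) {x y z : ℂ} (hx : (N : ℂ) * x ∈ O) (hy : (N : ℂ) * y ∈ O)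
    (hz : (N : ℂ) * z ∈ O) (k v w : KK O) :
    T3 ω ε Λ R N x y z (k * v) (k * w) = k • T3 ω ε Λ R N x y z v w := by
  unfold T3
  rw [← qq_smul h k (t3_mem h hx hy hz v w)]
  congr 1
  funext c l
  show chi O ω ε N (z - y, x - z) c l • ((-((k * w : KK O) : ℂ), ((k * v : KK O) : ℂ)) : V2) =
    (k : ℂ) • (chi O ω ε N (z - y, x - z) c l • ((-(w : ℂ), (v : ℂ)) : V2))
  rw [smul_comm]
  congr 1
  ext
  · push_cast
    simp
  · push_cast
    simp

/-- `x = y`: only the difference of the weights matters -/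
theorem t3_half (h : Ctx O ω f ε N R Λ) {x y z : ℂ} (hx : (N : ℂ) * x ∈ O) (hy : (N : ℂ) * y ∈ O)
    (hz : (N : ℂ) * z ∈ O) (hyx : y - x ∈ O) (v w : KK O) :
    (2 : KK O) • T3 ω ε Λ R N x y z v w = (w - v) • T3 ω ε Λ R N x y z (-1) 1 := by
  have e1 : T3 ω ε Λ R N x y z v w = T3 ω ε Λ R N x y z (-w) (-v) := by
    rw [t3_sw h x y z v w]
    refine t3_congr h ?_ ?_ _ _
    · have : z - x - (z - y) = y - x := by ring
      rw [this]; exact hyx
    · have : y - z - (x - z) = y - x := by ring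
      rw [this]; exact hyx
  rw [two_smul]
  nth_rewrite 2 [e1]
  rw [← t3_add h hx hy hz, ← t3_smul h hx hy hz]
  congr 1 <;> ring

theorem t3_xy (h : Ctx O ω f ε N R Λ) (hN2 : 2 ≤ N) {φ : Fm O →ₗ[KK O] HH O N}
    (hφ : VL2 ω ε N R Λ φ) {x y z : ℂ} (hx : (N : ℂ) * x ∈ O) (hy : (N : ℂ) * y ∈ O)
    (hz : (N : ℂ) * z ∈ O) (hyx : y - x ∈ O) (v w : KK O) :
    T3 ω ε Λ R N x y z v w = dl (bz O (Bf ω ε N R Λ φ)) x y z v w := by
  have hbd := bf_BDN h hφ.toVL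
  have hh := t3_half h hx hy hz hyx v w
  have hcancel : ∀ {s t : HH O N}, (2 : KK O) • s = (2 : KK O) • t → s = t := by
    intro s t hst
    have e4 := congrArg (fun t => (2 : KK O)⁻¹ • t) hst
    simp only [smul_smul, inv_mul_cancel₀ (two_ne_zero (α := KK O)), one_smul] at e4
    exact e4
  by_cases hzy : z - y ∈ O
  · -- all points coincide
    have hxz : x - z ∈ O := by
      have := O.neg_mem (O.add_mem hzy hyx)
      have e : -(z - y + (y - x)) = x - z := by ring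
      rwa [e] at this
    have e1 : T3 ω ε Λ R N x y z (-1) 1 = T3 ω ε Λ R N x y z 1 0 := by
      rw [t3_cyc h x y z (-1) 1]
      have : (-(-1) - 1 : KK O) = 0 := by ring
      rw [this]
      refine t3_congr h ?_ ?_ _ _
      · exact O.sub_mem hxz hzy
      · exact O.sub_mem hyx hxz
    have e2 := t3_half h hx hy hz hyx 1 0
    rw [← e1] at e2
    have e3 : (3 : KK O) • T3 ω ε Λ R N x y z (-1) 1 = 0 := by
      have : (3 : KK O) = 2 + 1 := by norm_num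
      rw [this, add_smul, e2, one_smul]
      module
    have e4 : T3 ω ε Λ R N x y z (-1) 1 = 0 :=
      (smul_eq_zero.1 e3).resolve_left three_ne_zero
    rw [e4, smul_zero] at hh
    have e5 : T3 ω ε Λ R N x y z v w = 0 := (smul_eq_zero.1 hh).resolve_left two_ne_zero
    rw [e5]
    unfold dl
    rw [bz_1 _ _ hxz, bz_1 _ _ hyx, bz_1 _ _ hzy, bz_1 _ _ hyx, bz_1 _ _ hzy, bz_1 _ _ hxz]
    simp
  · have na : (N : ℂ) * (z - y) ∈ O := by rw [mul_sub]; exact O.sub_mem hz hy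
    have e1 : T3 ω ε Λ R N x y z (-1) 1 =
        (2 : KK O) • Bf ω ε N R Λ φ (z - y) (z - y) := by
      rw [← qq_coin h hN2 hφ na hzy]
      unfold T3
      have e0 : ((-1 : KK O) : ℂ) = -1 := by push_cast; rfl
      have e00 : ((1 : KK O) : ℂ) = 1 := rfl
      rw [e0, e00, fb_chi h.quad (x := (z - y, -(z - y))) (y := (z - y, x - z))
        (by show (z - y) - (z - y) ∈ O; rw [sub_self]; exact O.zero_mem)
        (by
          show (x - z) - -(z - y) ∈ O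
          have : (x - z) - -(z - y) = -(y - x) := by ring
          rw [this]; exact O.neg_mem hyx)]
    have e2 : T3 ω ε Λ R N x y z v w = (w - v) • Bf ω ε N R Λ φ (z - y) (z - y) := by
      apply hcancel
      rw [hh, e1]
      rw [smul_comm]
    have nzy : -(z - y) ∉ O := fun hh => hzy (by have := O.neg_mem hh; rwa [neg_neg] at this)
    have nna : (N : ℂ) * (-(z - y)) ∈ O := by rw [mul_neg]; exact O.neg_mem na
    have hxz : x - z ∉ O := by
      intro hh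
      apply nzy
      have := O.add_mem hh hyx
      have e : x - z + (y - x) = -(z - y) := by ring
      rwa [e] at this
    have e3 : x - z = -(z - y) + ((-⟨_, hyx⟩ : O) : ℂ) := by
      push_cast
      ring
    have e4 : Bf ω ε N R Λ φ (x - z) (z - y) = -Bf ω ε N R Λ φ (z - y) (z - y) := by
      rw [e3, hbd.per1 _ _ nna na nzy hzy, (bdn_neg hbd na na hzy hzy).1]
    have e5 : Bf ω ε N R Λ φ (z - y) (x - z) = Bf ω ε N R Λ φ (z - y) (z - y) := by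
      rw [e3, hbd.per2 _ _ na nna hzy nzy, (bdn_neg hbd na na hzy hzy).2]
    rw [e2]
    unfold dl
    rw [bz_3 _ hxz hzy, bz_1 _ _ hyx, bz_3 _ hzy hxz, bz_1 _ _ hyx, bz_2 _ _ hyx, bz_2 _ _ hyx,
      e4, e5]
    module

/-- the values of all symbols -/
theorem t3_all (h : Ctx O ω f ε N R Λ) (hN2 : 2 ≤ N) {φ : Fm O →ₗ[KK O] HH O N}
    (hφ : VL2 ω ε N R Λ φ) {x y z : ℂ} (hx : (N : ℂ) * x ∈ O) (hy : (N : ℂ) * y ∈ O)
    (hz : (N : ℂ) * z ∈ O) (v w : KK O) :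
    T3 ω ε Λ R N x y z v w = dl (bz O (Bf ω ε N R Λ φ)) x y z v w := by
  by_cases h3 : y - x ∈ O
  · exact t3_xy h hN2 hφ hx hy hz h3 v w
  by_cases h1 : z - y ∈ O
  · rw [t3_cyc h, dl_cyc]
    exact t3_xy h hN2 hφ hy hz hx h1 _ _
  by_cases h2 : x - z ∈ O
  · rw [t3_cyc h, t3_cyc h, dl_cyc, dl_cyc]
    exact t3_xy h hN2 hφ hz hx hy h2 _ _
  · have e := tau_dl h hφ.toVL hx hy hz h1 h2 h3 v w
    unfold T3 QQ
    rw [e]
    unfold dl
    rw [bz_3 _ h2 h1, bz_3 _ h3 h1, bz_3 _ h1 h2, bz_3 _ h3 h2, bz_3 _ h1 h3, bz_3 _ h2 h3]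

end Pool.Agent.KTD
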