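import Pool.Agent.Lib_helper87.KTD.P.HC
import Pool.Agent.Lib_helper87.KTD.Y.YE
import Pool.Agent.Lib_helper76.TCL.P.SL
import Pool.Agent.Lib_helper76.TCL.P.QL

set_option autoImplicit false

namespace Pool.Agent.KTD

open Complex Pool.Agent.TCL

/-- free vector space on the pairs -/
private abbrev IaS (O : Subring ℂ) : Type := (ℂ × ℂ) →₀ KK O

private noncomputable def iaE (O : Subring ℂ) (a b : ℂ) : IaS O := Finsupp.single (a, b) 1

private noncomputable def iaL {O : Subring ℂ} {H : Type} [AddCommGroup H] [Module (KK O) H]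
    (B : ℂ → ℂ → H) : IaS O →ₗ[KK O] H :=
  Finsupp.linearCombination (KK O) (fun p : ℂ × ℂ => B p.1 p.2)

private theorem iaL_E {O : Subring ℂ} {H : Type} [AddCommGroup H] [Module (KK O) H]
    (B : ℂ → ℂ → H) (a b : ℂ) : iaL B (iaE O a b) = B a b := by
  simp [iaL, iaE, Finsupp.linearCombination_single]

private theorem ia_map {O : Subring ℂ} {H H' : Type} [AddCommGroup H] [Module (KK O) H]
    [AddCommGroup H'] [Module (KK O) H'] (L : H →ₗ[KK O] H') (B : ℂ → ℂ → H) (x y z : ℂ)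
    (v w : KK O) : L (dl B x y z v w) = dl (fun a b => L (B a b)) x y z v w := by
  simp only [dl, map_add, map_smul]

/-- relations of some level -/
private noncomputable def iaW (O : Subring ℂ) (f : O) (ε : O → O) : Submodule (KK O) (IaS O) where
  carrier := {s | ∃ N : ℕ, 0 < N ∧ ∀ N' : ℕ, 0 < N' → N ∣ N' → ∀ (H : Type) [AddCommGroup H]
    [Module (KK O) H] (B : ℂ → ℂ → H), BDN O f ε N' H B → iaL B s = 0}
  zero_mem' := ⟨1, one_pos, fun _ _ _ _ _ _ _ _ => map_zero _⟩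
  add_mem' := by
    rintro a b ⟨N1, h1, k1⟩ ⟨N2, h2, k2⟩
    refine ⟨N1 * N2, Nat.mul_pos h1 h2, fun N' hN' hd H _ _ B hB => ?_⟩
    rw [map_add, k1 N' hN' ((dvd_mul_right _ _).trans hd) H B hB,
      k2 N' hN' ((dvd_mul_left _ _).trans hd) H B hB, add_zero]
  smul_mem' := by
    rintro c a ⟨N1, h1, k1⟩
    refine ⟨N1, h1, fun N' hN' hd H _ _ B hB => ?_⟩
    rw [map_smul, k1 N' hN' hd H B hB, smul_zero]

private theorem ia_mul_nat {O : Subring ℂ} {a : ℂ} {d N : ℕ} (h : (d : ℂ) * a ∈ O) (hd : d ∣ N) :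
    (N : ℂ) * a ∈ O := by
  obtain ⟨k, rfl⟩ := hd
  have e : ((d * k : ℕ) : ℂ) * a = (k : ℂ) * ((d : ℂ) * a) := by push_cast; ring
  rw [e]
  exact O.mul_mem (natCast_mem O k) h

private theorem ia_lev2 {O : Subring ℂ} {ω : ℂ} (hO : Quad O ω) {a b : ℂ} (ha : a ∈ KK O)
    (hb : b ∈ KK O) : ∃ d : ℕ, 0 < d ∧ ∀ N : ℕ, d ∣ N → (N : ℂ) * a ∈ O ∧ (N : ℂ) * b ∈ O := by
  obtain ⟨d1, h1, k1⟩ := nat_denom hO ha
  obtain ⟨d2, h2, k2⟩ := nat_denom hO hb
  exact ⟨d1 * d2, Nat.mul_pos h1 h2, fun N hN =>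
    ⟨ia_mul_nat k1 ((dvd_mul_right _ _).trans hN), ia_mul_nat k2 ((dvd_mul_left _ _).trans hN)⟩⟩

private theorem ia_per1 {O : Subring ℂ} {ω : ℂ} {f : O} {ε : O → O} (hO : Quad O ω) {a b : ℂ}
    (ha : a ∈ KK O) (hb : b ∈ KK O) (ha' : a ∉ O) (hb' : b ∉ O) (k : O) :
    iaE O (a + k) b - iaE O a b ∈ iaW O f ε := by
  obtain ⟨d, hd, hd2⟩ := ia_lev2 hO ha hb
  refine ⟨d, hd, fun N _ hN H _ _ B hB => ?_⟩
  rw [map_sub, iaL_E, iaL_E, hB.per1 a b (hd2 N hN).1 (hd2 N hN).2 ha' hb' k, sub_self]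

private theorem ia_per2 {O : Subring ℂ} {ω : ℂ} {f : O} {ε : O → O} (hO : Quad O ω) {a b : ℂ}
    (ha : a ∈ KK O) (hb : b ∈ KK O) (ha' : a ∉ O) (hb' : b ∉ O) (k : O) :
    iaE O a (b + k) - iaE O a b ∈ iaW O f ε := by
  obtain ⟨d, hd, hd2⟩ := ia_lev2 hO ha hb
  refine ⟨d, hd, fun N _ hN H _ _ B hB => ?_⟩
  rw [map_sub, iaL_E, iaL_E, hB.per2 a b (hd2 N hN).1 (hd2 N hN).2 ha' hb' k, sub_self]

/-- a multiple of the norm of `r` -/
private theorem ia_norm {O : Subring ℂ} {ω : ℂ} (hO : Quad O ω) {r : O} (hr : r ≠ 0) :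
    ∃ m : ℕ, 0 < m ∧ ∃ s : O, (m : O) = r * s := by
  obtain ⟨m, hm, e⟩ := ql_norm_nat hO r hr
  refine ⟨m, hm, ⟨starRingEnd ℂ (r : ℂ), conj_mem hO r.2⟩, ?_⟩
  apply Subtype.ext
  push_cast
  exact e.symm

private theorem ia_lev3 {O : Subring ℂ} {ω : ℂ} (hO : Quad O ω) {a b : ℂ} (ha : a ∈ KK O)
    (hb : b ∈ KK O) {r : O} (hr : r ≠ 0) : ∃ d : ℕ, 0 < d ∧ ∀ N : ℕ, d ∣ N →
      (N : ℂ) * a ∈ O ∧ (N : ℂ) * b ∈ O ∧ ∃ r' : O, (N : O) = r * r' ∧ (r' : ℂ) * a ∈ O ∧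
        (r' : ℂ) * b ∈ O := by
  obtain ⟨d, hd, hd2⟩ := ia_lev2 hO ha hb
  obtain ⟨m, hm, s, hs⟩ := ia_norm hO hr
  refine ⟨m * d, Nat.mul_pos hm hd, fun N hN => ⟨(hd2 N ((dvd_mul_left _ _).trans hN)).1,
    (hd2 N ((dvd_mul_left _ _).trans hN)).2, ?_⟩⟩
  obtain ⟨t, rfl⟩ := hN
  refine ⟨s * ((d * t : ℕ) : O), ?_, ?_, ?_⟩
  · push_cast
    rw [hs]
    ring
  · have e : ((s * ((d * t : ℕ) : O) : O) : ℂ) * a = (s : ℂ) * (((d * t : ℕ) : ℂ) * a) := by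
      push_cast
      ring
    rw [e]
    exact O.mul_mem s.2 (hd2 _ (dvd_mul_right _ _)).1
  · have e : ((s * ((d * t : ℕ) : O) : O) : ℂ) * b = (s : ℂ) * (((d * t : ℕ) : ℂ) * b) := by
      push_cast
      ring
    rw [e]
    exact O.mul_mem s.2 (hd2 _ (dvd_mul_right _ _)).2

private theorem ia_dist1 {O : Subring ℂ} {ω : ℂ} {f : O} {ε : O → O} (hO : Quad O ω) {a b : ℂ}
    (ha : a ∈ KK O) (hb : b ∈ KK O) (ha' : a ∉ O) (hb' : b ∉ O) {r : O} (hr : r ≠ 0)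
    {R : Finset O} (hR : IsReps r R) {c : KK O} (hc : (c : ℂ) * starRingEnd ℂ (r : ℂ) = 1) :
    ∑ k ∈ R, iaE O ((a + k) / r) b - c • iaE O a b ∈ iaW O f ε := by
  obtain ⟨d, hd, hd2⟩ := ia_lev3 hO ha hb hr
  refine ⟨d, hd, fun N _ hN H _ _ B hB => ?_⟩
  obtain ⟨h1, h2, r', h3, h4, h5⟩ := hd2 N hN
  rw [map_sub, map_sum, map_smul, iaL_E]
  simp only [iaL_E]
  rw [hB.dist1 a b h2 ha' hb' r r' hr h3 h4 R hR c hc, sub_self]

private theorem ia_dist2 {O : Subring ℂ} {ω : ℂ} {f : O} {ε : O → O} (hO : Quad O ω) {a b : ℂ}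
    (ha : a ∈ KK O) (hb : b ∈ KK O) (ha' : a ∉ O) (hb' : b ∉ O) {r : O} (hr : r ≠ 0)
    {R : Finset O} (hR : IsReps r R) :
    ∑ k ∈ R, iaE O a ((b + k) / r) - iaE O a b ∈ iaW O f ε := by
  obtain ⟨d, hd, hd2⟩ := ia_lev3 hO ha hb hr
  refine ⟨d, hd, fun N _ hN H _ _ B hB => ?_⟩
  obtain ⟨h1, h2, r', h3, h4, h5⟩ := hd2 N hN
  rw [map_sub, map_sum, iaL_E]
  simp only [iaL_E]
  rw [hB.dist2 a b h1 ha' hb' r r' hr h3 h5 R hR, sub_self]

/-- a multiple of `a` by an element prime to a denominator is not in `O` -/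
private theorem ia_notMem {O : Subring ℂ} {a : ℂ} {n c u : O} (ha : a ∉ O)
    (hn : (n : ℂ) * a ∈ O) (hc : IsCoprime c n) (hu : IsUnit u) : (u : ℂ) * c * a ∉ O := by
  intro h
  obtain ⟨p, q, e⟩ := hc
  obtain ⟨u', hu'⟩ := hu.exists_left_inv
  apply ha
  have e1 : (p : ℂ) * c + q * n = 1 := by exact_mod_cast e
  have e2 : (u' : ℂ) * u = 1 := by exact_mod_cast hu'
  have e3 : a = (p : ℂ) * (u' * (u * c * a)) + q * (n * a) := by
    linear_combination (-a) * e1 + (-(p : ℂ) * c * a) * e2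
  rw [e3]
  exact O.add_mem (O.mul_mem p.2 (O.mul_mem u'.2 h)) (O.mul_mem q.2 hn)

private theorem ia_gal {O : Subring ℂ} {ω : ℂ} {f : O} {ε : O → O} (hO : Quad O ω)
    (hP : IsPrincipalIdealRing O) (hε : GC O f ε) {a b : ℂ}
    (ha : a ∈ KK O) (hb : b ∈ KK O) (ha' : a ∉ O) (hb' : b ∉ O) {n c : O}
    (hna : (n : ℂ) * a ∈ O) (hnb : (n : ℂ) * b ∈ O) (hc : IsCoprime c (n * f)) :
    iaE O (ε c * c * a) (ε c * c * b) - iaE O a b ∈ iaW O f ε := by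
  obtain ⟨d, hd, hd2⟩ := ia_lev2 hO ha hb
  refine ⟨d, hd, fun N hN0 hN H _ _ B hB => ?_⟩
  obtain ⟨h1, h2⟩ := hd2 N hN
  have hNO : (N : O) ≠ 0 := by
    intro e
    have e1 : (N : ℂ) = 0 := by exact_mod_cast congrArg (fun t : O => (t : ℂ)) e
    have e2 : N = 0 := by exact_mod_cast e1
    omega
  obtain ⟨c', hc', t, ht⟩ := lift_coprime hP (n * f) (N : O) hNO c hc
  have e1 : c' = c + f * (n * t) := by linear_combination ht
  have e2 : ε c' = ε c := by rw [e1]; exact hε.per c (n * t)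
  have hu : IsUnit (ε c) := hε.unit c (IsCoprime.of_mul_right_right hc)
  have hcn : IsCoprime c n := IsCoprime.of_mul_right_left hc
  -- the translation
  have key : ∀ {s : ℂ} (hs : (n : ℂ) * s ∈ O),
      ∃ k : O, (ε c' : ℂ) * c' * s = ε c * c * s + k := by
    intro s hs
    refine ⟨⟨(ε c : ℂ) * f * t * (n * s), O.mul_mem (O.mul_mem (O.mul_mem (ε c).2 f.2) t.2) hs⟩, ?_⟩
    rw [e2, e1]
    push_cast
    ring
  obtain ⟨k1, hk1⟩ := key hna
  obtain ⟨k2, hk2⟩ := key hnb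
  have g := hB.gal a b h1 h2 ha' hb' c' hc'
  rw [hk1, hk2] at g
  have m1 : (N : ℂ) * (ε c * c * a) ∈ O := by
    have e : (N : ℂ) * (ε c * c * a) = (ε c : ℂ) * c * (N * a) := by ring
    rw [e]
    exact O.mul_mem (O.mul_mem (ε c).2 c.2) h1
  have m2 : (N : ℂ) * (ε c * c * b) ∈ O := by
    have e : (N : ℂ) * (ε c * c * b) = (ε c : ℂ) * c * (N * b) := by ring
    rw [e]
    exact O.mul_mem (O.mul_mem (ε c).2 c.2) h2
  have n1 : (ε c : ℂ) * c * a ∉ O := ia_notMem ha' hna hcn hu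
  have n2 : (ε c : ℂ) * c * b ∉ O := ia_notMem hb' hnb hcn hu
  have m2' : (N : ℂ) * (ε c * c * b + k2) ∈ O := by
    rw [mul_add]
    exact O.add_mem m2 (O.mul_mem (natCast_mem O N) k2.2)
  have n2' : (ε c : ℂ) * c * b + k2 ∉ O := by
    intro e
    apply n2
    have := O.sub_mem e k2.2
    rwa [add_sub_cancel_right] at this
  rw [hB.per1 _ _ m1 m2' n1 n2' k1, hB.per2 _ _ m1 m2 n1 n2 k2] at g
  rw [map_sub, iaL_E, iaL_E, g, sub_self]


private theorem ia_map0 {O : Subring ℂ} {H H' : Type} [AddCommGroup H] [Module (KK O) H]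
    [AddCommGroup H'] [Module (KK O) H'] (L : H →ₗ[KK O] H') (B : ℂ → ℂ → H) (x y z : ℂ)
    (v w : KK O) : L (dl (bz O B) x y z v w) = dl (bz O (fun a b => L (B a b))) x y z v w := by
  rw [ia_map]
  congr 1
  funext a b
  unfold bz
  split_ifs
  · exact map_zero L
  · rfl

/-- `rel_level` for all symbols -/
theorem rel_level0 {O : Subring ℂ} {ω : ℂ} {f : O} {ε : O → O} (hO : Quad O ω)
    (hP : IsPrincipalIdealRing O) (hε : GC O f ε) {n : ℕ} (x y z : Fin n → ℂ)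
    (v w : Fin n → KK O)
    (hB : ∀ B : ℂ → ℂ → KK O, BD O f ε (KK O) B →
      ∑ i, dl (bz O B) (x i) (y i) (z i) (v i) (w i) = 0)
    (N0 : ℕ) (hN0 : 0 < N0) :
    ∃ N : ℕ, 0 < N ∧ N0 ∣ N ∧ ∀ (H : Type) [AddCommGroup H] [Module (KK O) H] (B : ℂ → ℂ → H),
      BDN O f ε N H B → ∑ i, dl (bz O B) (x i) (y i) (z i) (v i) (w i) = 0 := by
  have hD : ∑ i, dl (bz O (iaE O)) (x i) (y i) (z i) (v i) (w i) ∈ iaW O f ε := by
    by_contra hcon
    obtain ⟨φ, hφ, hφW⟩ := Submodule.exists_dual_map_eq_bot_of_notMem hcon inferInstance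
    have hφ0 : ∀ s ∈ iaW O f ε, φ s = 0 := by
      intro s hs
      have : φ s ∈ Submodule.map φ (iaW O f ε) := Submodule.mem_map_of_mem hs
      rw [hφW] at this
      exact (Submodule.mem_bot _).1 this
    have hBD : BD O f ε (KK O) (fun a b => φ (iaE O a b)) := by
      refine ⟨?_, ?_, ?_, ?_, ?_⟩
      · intro a ha b hb ha' hb' k
        have := hφ0 _ (ia_per1 (f := f) (ε := ε) hO ha hb ha' hb' k)
        rw [map_sub] at this
        exact sub_eq_zero.1 this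
      · intro a ha b hb ha' hb' k
        have := hφ0 _ (ia_per2 (f := f) (ε := ε) hO ha hb ha' hb' k)
        rw [map_sub] at this
        exact sub_eq_zero.1 this
      · intro a ha b hb ha' hb' r hr R hR c hc
        have := hφ0 _ (ia_dist1 (f := f) (ε := ε) hO ha hb ha' hb' hr hR hc)
        rw [map_sub, map_sum, map_smul] at this
        exact sub_eq_zero.1 this
      · intro a ha b hb ha' hb' r hr R hR
        have := hφ0 _ (ia_dist2 (f := f) (ε := ε) hO ha hb ha' hb' hr hR)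
        rw [map_sub, map_sum] at this
        exact sub_eq_zero.1 this
      · intro a ha b hb ha' hb' m c hm hma hmb hc
        have := hφ0 _ (ia_gal hO hP hε ha hb ha' hb' hma hmb hc)
        rw [map_sub] at this
        exact sub_eq_zero.1 this
    apply hφ
    rw [map_sum]
    rw [← hB _ hBD]
    exact Finset.sum_congr rfl fun i _ => ia_map0 φ _ _ _ _ _ _
  obtain ⟨N, hN, hN2⟩ := hD
  refine ⟨N0 * N, Nat.mul_pos hN0 hN, dvd_mul_right _ _, fun H _ _ B hBN => ?_⟩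
  have e := hN2 (N0 * N) (Nat.mul_pos hN0 hN) (dvd_mul_left _ _) H B hBN
  rw [map_sum] at e
  rw [← e]
  refine Finset.sum_congr rfl fun i _ => ?_
  rw [ia_map0]
  simp only [iaL_E]

end Pool.Agent.KTD
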