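import Pool.Agent.Lib_helper87.KTD.Y.YF
import Pool.Agent.Lib_helper87.KTD.P.XG
import Pool.Agent.Lib_helper87.KTD.St0

/-!
# Project KTD, all torsion points: the theorem
-/

set_option autoImplicit false

namespace Pool.Agent.KTD

open Complex Pool.Agent.TCL

variable {O : Subring ℂ} {ω : ℂ} {f : O} {ε : O → O} {N : ℕ} {R : Finset O} {Λ : ℂ →ₗ[KK O] KK O}

theorem yg_notMem {a : ℂ} {n c u : O} (ha : a ∉ O)
    (hn : (n : ℂ) * a ∈ O) (hc : IsCoprime c n) (hu : IsUnit u) : (u : ℂ) * c * a ∉ O := by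
  intro h
  obtain ⟨p, q, e⟩ := hc
  obtain ⟨u', hu'⟩ := hu.exists_left_inv
  apply ha
  have e1 : (p : ℂ) * c + q * n = 1 := by exact_mod_cast e
  have e2 : (u' : ℂ) * u = 1 := by exact_mod_cast hu'
  have e3 : a = (p : ℂ) * (u' * (u * c * a)) + q * (n * a) := by
    linear_combination (-a) * e1 + (-(p : ℂ) * c * a) * e2
  rw [e3]
  exact O.add_mem (O.mul_mem p.2 (O.mul_mem u'.2 h)) (O.mul_mem q.2 hn)

theorem yg_add {a : ℂ} (ha : a ∉ O) (k : O) : a + k ∉ O := by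
  intro h
  apply ha
  have := O.sub_mem h k.2
  rwa [add_sub_cancel_right] at this

/-- the zero extension of a bidistribution -/
theorem bd_bz (hε : GC O f ε) {H : Type} [AddCommGroup H] [Module (KK O) H] {B : ℂ → ℂ → H}
    (hB : BD O f ε H B) : BD0 O f ε H (bz O B) := by
  refine ⟨⟨?_, ?_, ?_, ?_, ?_⟩, ?_, ?_⟩
  · intro a ha b hb ha' hb' k
    rw [bz_3 _ (yg_add ha' k) hb', bz_3 _ ha' hb', hB.per1 a ha b hb ha' hb' k]
  · intro a ha b hb ha' hb' k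
    rw [bz_3 _ ha' (yg_add hb' k), bz_3 _ ha' hb', hB.per2 a ha b hb ha' hb' k]
  · intro a ha b hb ha' hb' r hr S hS c hc
    rw [bz_3 _ ha' hb', ← hB.dist1 a ha b hb ha' hb' r hr S hS c hc]
    exact Finset.sum_congr rfl fun k _ => bz_3 _ (hc_div_not hr ha' k) hb'
  · intro a ha b hb ha' hb' r hr S hS
    rw [bz_3 _ ha' hb', ← hB.dist2 a ha b hb ha' hb' r hr S hS]
    exact Finset.sum_congr rfl fun k _ => bz_3 _ ha' (hc_div_not hr hb' k)
  · intro a ha b hb ha' hb' n c hn hna hnb hc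
    have hu : IsUnit (ε c) := hε.unit c (IsCoprime.of_mul_right_right hc)
    have hcn : IsCoprime c n := IsCoprime.of_mul_right_left hc
    rw [bz_3 _ ha' hb', bz_3 _ (yg_notMem ha' hna hcn hu) (yg_notMem hb' hnb hcn hu),
      hB.gal a ha b hb ha' hb' n c hn hna hnb hc]
  · intro a ha b _
    exact bz_1 _ _ ha
  · intro a _ b hb
    exact bz_2 _ _ hb

theorem yg_tau_zero (h : Ctx O ω f ε N R Λ) (hN2 : 2 ≤ N) {n : ℕ}
    (x y z : Fin n → ℂ) (v w : Fin n → KK O) (hx : ∀ i, (N : ℂ) * x i ∈ O)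
    (hy : ∀ i, (N : ℂ) * y i ∈ O) (hz : ∀ i, (N : ℂ) * z i ∈ O)
    (hB : ∀ (H : Type) [AddCommGroup H] [Module (KK O) H] (B : ℂ → ℂ → H),
      BDN O f ε N H B → ∑ i, dl (bz O B) (x i) (y i) (z i) (v i) (w i) = 0) :
    Λ (∑ i, TT R (1, 0) (0, 1) (-1, -1)
      (ten (-(w i : ℂ), (v i : ℂ)) (chi O ω ε N (z i - y i, x i - z i)))) = 0 := by
  obtain ⟨φ, hφ⟩ := exists_VL2 h hN2
  have e1 := hB (HH O N) (Bf ω ε N R Λ φ) (bf_BDN h hφ.toVL)
  have e2 : (Nul O N).mkQ (fun _ => Λ (∑ i, TT R (1, 0) (0, 1) (-1, -1)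
      (ten (-(w i : ℂ), (v i : ℂ)) (chi O ω ε N (z i - y i, x i - z i))))) = 0 := by
    rw [← e1]
    have e3 : (fun _ : PP O N => Λ (∑ i, TT R (1, 0) (0, 1) (-1, -1)
      (ten (-(w i : ℂ), (v i : ℂ)) (chi O ω ε N (z i - y i, x i - z i))))) =
      ∑ i, fun _ : PP O N => tau Λ R (1, 0) (0, 1) (-1, -1)
      (ten (-(w i : ℂ), (v i : ℂ)) (chi O ω ε N (z i - y i, x i - z i))) := by
      funext p
      rw [Finset.sum_apply, map_sum]
      rfl
    rw [e3, map_sum]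
    exact Finset.sum_congr rfl fun i _ => t3_all h hN2 hφ (hx i) (hy i) (hz i) (v i) (w i)
  rw [Submodule.mkQ_apply, Submodule.Quotient.mk_eq_zero] at e2
  exact nul_const h e2

/-- the theorem for all torsion points -/
theorem main0 (hO : Quad O ω) (hP : IsPrincipalIdealRing O) (hf : f ≠ 0) (hε : GC O f ε) {n : ℕ}
    (x y z : Fin n → ℂ) (v w : Fin n → KK O)
    (hB : ∀ B : ℂ → ℂ → KK O, BD O f ε (KK O) B →
      ∑ i, dl (bz O B) (x i) (y i) (z i) (v i) (w i) = 0)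
    (M : O) (S : Finset O) (hfM : f ∣ M) (hM : M ≠ 0) (hS : IsReps M S)
    (hMx : ∀ i, (M : ℂ) * x i ∈ O) (hMy : ∀ i, (M : ℂ) * y i ∈ O)
    (hMz : ∀ i, (M : ℂ) * z i ∈ O) :
    open Classical in ∃ ρ : KK O, ∑ c ∈ S.filter (fun c => IsCoprime c M), ∑ i,
        KS O ω (ε c * c * x i) (ε c * c * y i) (ε c * c * z i) (v i) (w i) = ρ * LE O ε := by
  classical
  obtain ⟨N0, hN0, hMN0⟩ := ql_norm_nat hO M hM
  obtain ⟨N, hN, hNN', hrel⟩ := rel_level0 hO hP hε x y z v w hB (2 * N0) (by omega)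
  have hNN : N0 ∣ N := (dvd_mul_left _ _).trans hNN'
  have hN2 : 2 ≤ N := Nat.le_of_dvd hN ((dvd_mul_right _ _).trans hNN')
  have hMN : M ∣ (N : O) := by
    obtain ⟨d, hd⟩ := hNN
    refine ⟨cj hO M * (d : O), ?_⟩
    apply Subtype.ext
    rw [hd]
    push_cast
    rw [coe_cj, ← hMN0]
    ring
  have hNO : (N : O) ≠ 0 := by
    intro h
    have := congrArg (Subtype.val) h
    rw [fin_natCast] at this
    have h0 : (N : ℂ) = 0 := this
    exact hN.ne' (by exact_mod_cast h0)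
  have hmul : ∀ t : ℂ, (M : ℂ) * t ∈ O → (N : ℂ) * t ∈ O := by
    intro t ht
    obtain ⟨d, hd⟩ := hMN
    have hd' : (N : ℂ) = M * d := by
      rw [← fin_natCast (O := O), hd]
      push_cast
      rfl
    rw [hd', mul_comm (M : ℂ), mul_assoc]
    exact O.mul_mem d.2 ht
  obtain ⟨S', hS'⟩ := exists_reps hO (N : O) hNO
  obtain ⟨q, hq, hlift⟩ := trace_lift hO hP hε hfM hNO hMN hS hS' x y z (fun i => v i)
    (fun i => w i) hMx hMy hMz
  set R := S'.filter (fun c => IsCoprime c (N : O)) with hR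
  have hctx : ∀ Λ : ℂ →ₗ[KK O] KK O, Λ (LE O ε) = 0 → Ctx O ω f ε N R Λ := by
    intro Λ hΛ
    refine ⟨hO, hP, hf, hε, hN, hfM.trans hMN, ?_, ?_, hΛ⟩
    · intro a ha
      obtain ⟨k, ⟨hk, hak⟩, huniq⟩ := hS' a
      refine ⟨k, ⟨?_, hak⟩, fun k' hk' => huniq k' ⟨(Finset.mem_filter.1 hk'.1).1, hk'.2⟩⟩
      refine Finset.mem_filter.2 ⟨hk, ?_⟩
      obtain ⟨d, hd⟩ := hak
      have e : k = a + (N : O) * (-d) := by linear_combination -hd
      rw [e]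
      exact ha.add_mul_left_left _
    · intro a ha
      exact (Finset.mem_filter.1 ha).2
  set t : ℂ := ∑ c ∈ R, ∑ i, KS O ω (ε c * c * x i) (ε c * c * y i) (ε c * c * z i) (v i) (w i)
    with ht
  obtain ⟨ρ, hρ⟩ : ∃ ρ : KK O, t = ρ * LE O ε := by
    refine functional fun Λ hΛ => ?_
    have h := hctx Λ hΛ
    have e := yg_tau_zero h hN2 x y z v w (fun i => hmul _ (hMx i)) (fun i => hmul _ (hMy i))
      (fun i => hmul _ (hMz i)) hrel
    rw [← e, ht, Finset.sum_comm]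
    congr 1
    exact Finset.sum_congr rfl fun i _ => ks_tt h _ _ _ _ _
  have hqK : (q : ℂ) ∈ KK O := SubfieldClass.ratCast_mem _ _
  refine ⟨⟨q, hqK⟩ * ρ, ?_⟩
  rw [hlift, hρ]
  push_cast
  ring

/-- the two statements on closed combinations -/
theorem main20 (hO : Quad O ω) (hP : IsPrincipalIdealRing O) (hf : f ≠ 0) (hε : GC O f ε)
    {n : ℕ} {x y z : Fin n → ℂ} {v w : Fin n → KK O} {M : O} {S : Finset O}
    (hA : Adm0 O f ε n x y z v w M S) :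
    (∃ ρ : KK O, TR0 O ω ε M S n x y z v w = ρ * LE O ε) ∧
      ∀ u : O, IsUnit u → CInv0 O u n x y z v w → ∀ δ : KK O, δ ≠ 0 →
        starRingEnd ℂ (δ : ℂ) = u * δ → ∃ r : ℚ, TR0 O ω ε M S n x y z v w = r * δ * LE O ε := by
  classical
  have hB : ∀ B : ℂ → ℂ → KK O, BD O f ε (KK O) B →
      ∑ i, dl (bz O B) (x i) (y i) (z i) (v i) (w i) = 0 := fun B hB =>
    hA.closed _ (bd_bz hε hB)
  have hfM := hA.dvd
  have hM := hA.ne
  have hS := hA.reps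
  have hMx := hA.level
  refine ⟨main0 hO hP hf hε x y z v w hB M S hfM hM hS
    (fun i => (hMx i).1) (fun i => (hMx i).2.1) (fun i => (hMx i).2.2), ?_⟩
  intro u hu hc δ hδ hδu
  obtain ⟨N, hN, hMN⟩ := re_nat hO hM
  have hNc : ((N : O) : ℂ) = (N : ℂ) := by simp
  have hNO : (N : O) ≠ 0 := by
    intro h
    have := congrArg (Subtype.val) h
    rw [hNc] at this
    have h0 : (N : ℂ) = 0 := this
    exact hN.ne' (by exact_mod_cast h0)
  have hmul : ∀ t : ℂ, (M : ℂ) * t ∈ O → (N : ℂ) * t ∈ O := by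
    intro t ht
    obtain ⟨d, hd⟩ := hMN
    have hd' : (N : ℂ) = M * d := by
      rw [← hNc, hd]
      push_cast
      rfl
    rw [hd', mul_comm (M : ℂ), mul_assoc]
    exact O.mul_mem d.2 ht
  obtain ⟨S', hS'⟩ := exists_reps hO (N : O) hNO
  obtain ⟨q, hq, hlift⟩ := trace_lift hO hP hε hfM hNO hMN hS hS' x y z (fun i => v i)
    (fun i => w i) (fun i => (hMx i).1) (fun i => (hMx i).2.1) (fun i => (hMx i).2.2)
  have h1 : TR0 O ω ε M S n x y z v w = q * TR O ω ε (N : O) S' n x y z v w := hlift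
  obtain ⟨ρ, hρ⟩ := main0 hO hP hf hε x y z v w hB
    (N : O) S' (hfM.trans hMN) hNO hS' (fun i => by rw [hNc]; exact hmul _ (hMx i).1)
    (fun i => by rw [hNc]; exact hmul _ (hMx i).2.1) (fun i => by rw [hNc]; exact hmul _ (hMx i).2.2)
  have h2 : TR O ω ε (N : O) S' n x y z v w = ρ * LE O ε := hρ
  have h3 := tr_conj hO hε (hfM.trans hMN) hS' (fun i => hmul _ (hMx i).1)
    (fun i => hmul _ (hMx i).2.1) (fun i => hmul _ (hMx i).2.2) hu hc
  have hL := LE_ne_zero hO hP hf hε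
  have hδ' : (δ : ℂ) ≠ 0 := by
    intro h; exact hδ (Subtype.ext h)
  have hu0 : (u : ℂ) ≠ 0 := coe_ne_zero hu.ne_zero
  have h4 : starRingEnd ℂ (ρ : ℂ) = u * ρ := by
    rw [h2, map_mul, LE_conj hO hε] at h3
    have : starRingEnd ℂ (ρ : ℂ) * LE O ε = (u * ρ) * LE O ε := by rw [h3]; ring
    exact mul_right_cancel₀ hL this
  have h5 : starRingEnd ℂ (((ρ / δ : KK O)) : ℂ) = ((ρ / δ : KK O) : ℂ) := by
    push_cast
    rw [map_div₀, h4, hδu]
    field_simp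
  obtain ⟨r, hr⟩ := real_mem_KK hO (ρ / δ : KK O).2 h5
  refine ⟨q * r, ?_⟩
  have h6 : (ρ : ℂ) = r * δ := by
    have : ((ρ / δ : KK O) : ℂ) = (ρ : ℂ) / δ := by push_cast; rfl
    rw [← hr, this]
    field_simp
  rw [h1, h2, h6]
  push_cast
  ring

theorem adm_adm0 {n : ℕ} {x y z : Fin n → ℂ} {v w : Fin n → KK O} {M : O} {S : Finset O}
    (h : Adm O f ε n x y z v w M S) : Adm0 O f ε n x y z v w M S :=
  ⟨fun B hB => h.closed B hB.toBD, h.dvd, h.ne, h.reps, h.level⟩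

theorem final0 (hO : Quad O ω) (hP : IsPrincipalIdealRing O) (hf : f ≠ 0) (hε : GC O f ε) :
    (∀ (n : ℕ) (x y z : Fin n → ℂ) (v w : Fin n → KK O) (M : O) (S : Finset O),
      Adm0 O f ε n x y z v w M S → ∃ ρ : KK O, TR0 O ω ε M S n x y z v w = ρ * LE O ε) ∧
    (∀ ρ : KK O, ∃ (n : ℕ) (x y z : Fin n → ℂ) (v w : Fin n → KK O) (M : O) (S : Finset O),
      Adm0 O f ε n x y z v w M S ∧ TR0 O ω ε M S n x y z v w = ρ * LE O ε) ∧
    ∀ (u : O) (δ : KK O), IsUnit u → δ ≠ 0 → starRingEnd ℂ (δ : ℂ) = u * δ →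
      (∀ (n : ℕ) (x y z : Fin n → ℂ) (v w : Fin n → KK O) (M : O) (S : Finset O),
        Adm0 O f ε n x y z v w M S → CInv0 O u n x y z v w →
          ∃ r : ℚ, TR0 O ω ε M S n x y z v w = r * δ * LE O ε) ∧
      (∀ r : ℚ, ∃ (n : ℕ) (x y z : Fin n → ℂ) (v w : Fin n → KK O) (M : O) (S : Finset O),
        Adm0 O f ε n x y z v w M S ∧ CInv0 O u n x y z v w ∧
          TR0 O ω ε M S n x y z v w = r * δ * LE O ε) := by
  obtain ⟨-, h2, h3⟩ := final (ω := ω) hO hP hf hε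
  refine ⟨?_, ?_, ?_⟩
  · intro n x y z v w M S h
    exact (main20 hO hP hf hε h).1
  · intro ρ
    obtain ⟨n, x, y, z, v, w, M, S, hA, hT⟩ := h2 ρ
    exact ⟨n, x, y, z, v, w, M, S, adm_adm0 hA, hT⟩
  · intro u δ hu hδ hδu
    refine ⟨?_, ?_⟩
    · intro n x y z v w M S h hc
      exact (main20 hO hP hf hε h).2 u hu hc δ hδ hδu
    · intro r
      obtain ⟨n, x, y, z, v, w, M, S, hA, hC, hT⟩ := (h3 u δ hu hδ hδu).2 r
      exact ⟨n, x, y, z, v, w, M, S, adm_adm0 hA, hC, hT⟩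

/-- the theorem, as equalities of sets -/
theorem final_sets (hO : Quad O ω) (hP : IsPrincipalIdealRing O) (hf : f ≠ 0) (hε : GC O f ε) :
    {t : ℂ | ∃ (n : ℕ) (x y z : Fin n → ℂ) (v w : Fin n → KK O) (M : O) (S : Finset O),
        Adm0 O f ε n x y z v w M S ∧ t = TR0 O ω ε M S n x y z v w} =
      {t : ℂ | ∃ ρ : KK O, t = ρ * LE O ε} ∧
    ∀ (u : O) (δ : KK O), IsUnit u → δ ≠ 0 → starRingEnd ℂ (δ : ℂ) = u * δ →
      {t : ℂ | ∃ (n : ℕ) (x y z : Fin n → ℂ) (v w : Fin n → KK O) (M : O) (S : Finset O),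
          Adm0 O f ε n x y z v w M S ∧ CInv0 O u n x y z v w ∧
            t = TR0 O ω ε M S n x y z v w} =
        {t : ℂ | ∃ r : ℚ, t = r * δ * LE O ε} := by
  obtain ⟨h1, h2, h3⟩ := final0 (ω := ω) hO hP hf hε
  refine ⟨Set.Subset.antisymm ?_ ?_, fun u δ hu hδ hδu => Set.Subset.antisymm ?_ ?_⟩
  · rintro t ⟨n, x, y, z, v, w, M, S, hA, rfl⟩
    exact h1 n x y z v w M S hA
  · rintro t ⟨ρ, rfl⟩
    obtain ⟨n, x, y, z, v, w, M, S, hA, hT⟩ := h2 ρ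
    exact ⟨n, x, y, z, v, w, M, S, hA, hT.symm⟩
  · rintro t ⟨n, x, y, z, v, w, M, S, hA, hC, rfl⟩
    exact (h3 u δ hu hδ hδu).1 n x y z v w M S hA hC
  · rintro t ⟨r, rfl⟩
    obtain ⟨n, x, y, z, v, w, M, S, hA, hC, hT⟩ := (h3 u δ hu hδ hδu).2 r
    exact ⟨n, x, y, z, v, w, M, S, hA, hC, hT.symm⟩

end Pool.Agent.KTD
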